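import Mathlib

section
/-! Shannon entropy of convolutions on a finite abelian group. -/

set_option autoImplicit false

open Finset Real

namespace Pool.Agent.Work.MP_baf0bc_nt.Ne

variable {G : Type} [AddCommGroup G] [Fintype G] [DecidableEq G]

abbrev A (G : Type) := AddMonoidAlgebra ℝ G

noncomputable def H (p : A G) : ℝ := ∑ x, negMulLog (p.coeff x)

def Pr (p : A G) : Prop := (∀ x, 0 ≤ p.coeff x) ∧ ∑ x, p.coeff x = 1

noncomputable def e (g : G) : A G := AddMonoidAlgebra.single g 1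

noncomputable def dig (q : ℕ) (g : G) : A G := (1 / q : ℝ) • ∑ d ∈ range q, e (d • g)

omit [DecidableEq G] in
theorem cm (p q : A G) (w : G) : (p * q).coeff w = ∑ y, p.coeff y * q.coeff (-y + w) := by
  rw [AddMonoidAlgebra.coeff_mul_apply_left, Finsupp.sum_fintype]
  intro i
  simp

omit [DecidableEq G] in
theorem sum_sh (f : G → ℝ) (y : G) : ∑ w, f (-y + w) = ∑ w, f w :=
  Equiv.sum_comp (Equiv.addLeft (-y)) f

omit [DecidableEq G] in
theorem Pr.mul {p q : A G} (hp : Pr p) (hq : Pr q) : Pr (p * q) := by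
  refine ⟨fun x => ?_, ?_⟩
  · rw [cm]
    exact sum_nonneg fun y _ => mul_nonneg (hp.1 _) (hq.1 _)
  · simp only [cm]
    rw [sum_comm]
    simp only [← mul_sum, sum_sh q.coeff, hq.2, mul_one, hp.2]

omit [AddCommGroup G] [Fintype G] in
theorem e_coeff (g x : G) : (e g).coeff x = if g = x then 1 else 0 := by
  simp [e, Finsupp.single_apply]

omit [AddCommGroup G] in
theorem pr_e (g : G) : Pr (e g) := by
  refine ⟨fun x => ?_, ?_⟩
  · rw [e_coeff]
    split_ifs <;> norm_num
  · simp [e_coeff]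

omit [Fintype G] [DecidableEq G] in
theorem e_add (a b : G) : e (a + b) = e a * e b := by
  simp [e, AddMonoidAlgebra.single_mul_single]

omit [Fintype G] [DecidableEq G] in
theorem e_zero : e (0 : G) = 1 := rfl

theorem pr_prod {ι : Type} (s : Finset ι) (f : ι → A G) (h : ∀ i ∈ s, Pr (f i)) :
    Pr (∏ i ∈ s, f i) :=
  prod_induction f Pr (fun _ _ => Pr.mul) (pr_e 0) h

theorem pr_dig {q : ℕ} (hq : 0 < q) (g : G) : Pr (dig q g) := by
  have q0 : (0 : ℝ) < q := Nat.cast_pos.2 hq
  refine ⟨fun x => ?_, ?_⟩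
  · simp only [dig, AddMonoidAlgebra.coeff_smul_apply, AddMonoidAlgebra.coeff_sum,
      Finsupp.finsetSum_apply, smul_eq_mul]
    exact mul_nonneg (by positivity) (sum_nonneg fun d _ => (pr_e _).1 x)
  · simp only [dig, AddMonoidAlgebra.coeff_smul_apply, AddMonoidAlgebra.coeff_sum,
      Finsupp.finsetSum_apply, smul_eq_mul, ← mul_sum]
    rw [sum_comm]
    simp only [(pr_e _).2]
    simp [q0.ne']

omit [DecidableEq G] in
theorem H_mono {p q : A G} (hp : Pr p) (hq : Pr q) : H p ≤ H (p * q) := by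
  rw [mul_comm]
  calc H p = ∑ y, q.coeff y * H p := by rw [← sum_mul, hq.2, one_mul]
    _ = ∑ w, ∑ y, q.coeff y • negMulLog (p.coeff (-y + w)) := by
      rw [sum_comm]
      simp only [smul_eq_mul, ← mul_sum, sum_sh fun x => negMulLog (p.coeff x), H]
    _ ≤ _ := by
      refine sum_le_sum fun w _ => ?_
      rw [cm]
      exact concaveOn_negMulLog.le_map_sum (fun y _ => hq.1 y) hq.2 fun y _ => hp.1 _

omit [DecidableEq G] in
theorem le_cm {p q : A G} (hp : Pr p) (hq : Pr q) (x y : G) :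
    p.coeff x * q.coeff y ≤ (p * q).coeff (x + y) := by
  rw [cm]
  have := single_le_sum (f := fun z => p.coeff z * q.coeff (-z + (x + y)))
    (fun z _ => mul_nonneg (hp.1 _) (hq.1 _)) (mem_univ x)
  simpa using this

omit [DecidableEq G] in
theorem ex_mul (p q : A G) (f : G → ℝ) :
    ∑ w, (p * q).coeff w * f w = ∑ x, ∑ y, p.coeff x * q.coeff y * f (x + y) := by
  simp only [cm, sum_mul]
  rw [sum_comm]
  refine sum_congr rfl fun x _ => ?_
  rw [← Equiv.sum_comp (Equiv.addLeft x)]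
  simp

omit [AddCommGroup G] [DecidableEq G] in
theorem H_eq (p : A G) : H p = -∑ x, p.coeff x * log (p.coeff x) := by
  simp [H, negMulLog]

omit [DecidableEq G] in
/-- The inequality of Kaimanovich and Vershik. -/
theorem KV {p q r : A G} (hp : Pr p) (hq : Pr q) (hr : Pr r) :
    H (p * q * r) + H p ≤ H (p * q) + H (p * r) := by
  set a := (p * q * r).coeff with ha
  set b := (p * q).coeff with hb
  set c := (p * r).coeff with hc
  have pa := (hp.mul hq).mul hr
  have h1 : H (p * q * r) = -∑ x, ∑ y, ∑ z,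
      p.coeff x * q.coeff y * r.coeff z * log (a (x + y + z)) := by
    rw [H_eq, ex_mul (p * q) r fun w => log (a w)]
    simp only [mul_assoc, ← mul_sum]
    rw [ex_mul p q fun w => ∑ z, r.coeff z * log (a (w + z))]
    simp only [mul_assoc, ← mul_sum]
  have h2 : H p = -∑ x, ∑ y, ∑ z, p.coeff x * q.coeff y * r.coeff z * log (p.coeff x) := by
    simp only [H_eq, ← sum_mul, ← mul_sum, hq.2, hr.2, mul_one]
  have h3 : H (p * q) = -∑ x, ∑ y, ∑ z, p.coeff x * q.coeff y * r.coeff z * log (b (x + y)) := by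
    rw [H_eq, ex_mul p q fun w => log (b w)]
    simp only [← sum_mul, ← mul_sum, hr.2, mul_one]
  have h4 : H (p * r) = -∑ x, ∑ y, ∑ z, p.coeff x * q.coeff y * r.coeff z * log (c (x + z)) := by
    rw [H_eq, ex_mul p r fun w => log (c w)]
    congr 1
    refine sum_congr rfl fun x _ => ?_
    rw [sum_comm]
    simp only [mul_right_comm _ (q.coeff _), ← mul_sum, hq.2, mul_one]
  have h5 : ∑ x, ∑ y, ∑ z, p.coeff x * q.coeff y * r.coeff z = 1 := by
    simp only [← mul_sum, hp.2, hq.2, hr.2, mul_one]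
  have h6 : ∑ x, ∑ y, ∑ z, q.coeff y * r.coeff z * b (x + y) * c (x + z) / a (x + y + z) ≤ 1 := by
    have k1 : ∀ w, ∑ z, r.coeff z * b (-z + w) = a w := fun w => by
      rw [ha, mul_comm (p * q), cm]
    have k2 : ∀ w, ∑ y, q.coeff y * c (-y + w) = a w := fun w => by
      rw [ha, mul_right_comm, mul_comm (p * r), cm]
    calc _ = ∑ y, ∑ z, ∑ w, q.coeff y * c (-y + w) * (r.coeff z * b (-z + w)) / a w := by
          rw [sum_comm]
          refine sum_congr rfl fun y _ => ?_
          rw [sum_comm]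
          refine sum_congr rfl fun z _ => ?_
          refine Eq.trans ?_ (Equiv.sum_comp (Equiv.addRight (y + z)) _)
          refine sum_congr rfl fun x _ => ?_
          simp only [Equiv.coe_addRight]
          rw [show -y + (x + (y + z)) = x + z by abel, show -z + (x + (y + z)) = x + y by abel,
            add_assoc]
          ring
      _ = ∑ w, a w * a w / a w := by
          rw [sum_congr rfl fun y _ => sum_comm, sum_comm]
          refine sum_congr rfl fun w _ => ?_
          simp only [← sum_div, ← mul_sum, ← sum_mul, k1, k2]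
      _ ≤ ∑ w, a w := sum_le_sum fun w _ => by
          rcases eq_or_ne (a w) 0 with h | h
          · simp [h]
          · rw [mul_div_assoc, div_self h, mul_one]
      _ = 1 := pa.2
  have h7 : ∀ x y z, p.coeff x * q.coeff y * r.coeff z * log (b (x + y)) +
      p.coeff x * q.coeff y * r.coeff z * log (c (x + z)) + p.coeff x * q.coeff y * r.coeff z ≤
      p.coeff x * q.coeff y * r.coeff z * log (a (x + y + z)) +
      p.coeff x * q.coeff y * r.coeff z * log (p.coeff x) +
      q.coeff y * r.coeff z * b (x + y) * c (x + z) / a (x + y + z) := by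
    intro x y z
    have b0 : 0 ≤ b (x + y) := (hp.mul hq).1 _
    have c0 : 0 ≤ c (x + z) := (hp.mul hr).1 _
    have a0 : 0 ≤ a (x + y + z) := pa.1 _
    have p0 := hp.1 x
    have q0 := hq.1 y
    have r0 := hr.1 z
    rcases eq_or_lt_of_le (mul_nonneg (mul_nonneg p0 q0) r0) with h | h
    · rw [← h]
      simp only [zero_mul, zero_add]
      positivity
    have r1 : 0 < r.coeff z := lt_of_le_of_ne r0 fun k => by simp [← k] at h
    have q1 : 0 < q.coeff y := lt_of_le_of_ne q0 fun k => by simp [← k] at h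
    have p1 : 0 < p.coeff x := lt_of_le_of_ne p0 fun k => by simp [← k] at h
    have b1 : 0 < b (x + y) := (mul_pos p1 q1).trans_le (le_cm hp hq x y)
    have c1 : 0 < c (x + z) := (mul_pos p1 r1).trans_le (le_cm hp hr x z)
    have a1 : 0 < a (x + y + z) := (mul_pos b1 r1).trans_le (le_cm (hp.mul hq) hr _ z)
    have l := log_le_sub_one_of_pos
      (x := b (x + y) * c (x + z) / (a (x + y + z) * p.coeff x)) (by positivity)
    rw [log_div (by positivity) (by positivity), log_mul b1.ne' c1.ne', log_mul a1.ne' p1.ne'] at l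
    have := mul_le_mul_of_nonneg_left l h.le
    have k : p.coeff x * q.coeff y * r.coeff z *
        (b (x + y) * c (x + z) / (a (x + y + z) * p.coeff x)) =
        q.coeff y * r.coeff z * b (x + y) * c (x + z) / a (x + y + z) := by field_simp
    nlinarith
  have h8 := sum_le_sum fun x (_ : x ∈ univ) => sum_le_sum fun y (_ : y ∈ univ) =>
    sum_le_sum fun z (_ : z ∈ univ) => h7 x y z
  simp only [sum_add_distrib] at h8
  linarith

omit [AddCommGroup G] [DecidableEq G] in
theorem H_ge {p : A G} (hp : Pr p) {K : ℝ} (h : ∀ x, p.coeff x ≤ 1 / K) : log K ≤ H p := by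
  rw [H_eq, ← one_mul (log K), ← hp.2, sum_mul, ← sum_neg_distrib]
  refine sum_le_sum fun x _ => ?_
  rcases eq_or_lt_of_le (hp.1 x) with k | k
  · simp [← k]
  · have := log_le_log k (h x)
    rw [one_div, log_inv] at this
    nlinarith

omit [AddCommGroup G] in
theorem H_le {p : A G} (hp : Pr p) (E : Finset G) {K N : ℝ} (hK : 0 < K) (hN : 0 < N)
    (h1 : (E.card : ℝ) ≤ K) (h2 : (Fintype.card G : ℝ) ≤ N) :
    H p + (∑ x ∈ E, p.coeff x) * (log N - log K) ≤ 1 + log N := by
  have key : ∀ (x : G) (c : ℝ), 0 < c → negMulLog (p.coeff x) ≤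
      p.coeff x * log c + 1 / c - p.coeff x := fun x c hc => by
    rcases eq_or_lt_of_le (hp.1 x) with k | k
    · simp [← k, hc.le]
    · have := log_le_sub_one_of_pos (x := 1 / (c * p.coeff x)) (by positivity)
      rw [one_div, log_inv, log_mul hc.ne' k.ne'] at this
      have l := mul_le_mul_of_nonneg_left this k.le
      have k2 : p.coeff x * (c * p.coeff x)⁻¹ = 1 / c := by field_simp
      rw [negMulLog]
      nlinarith
  have s1 := sum_le_sum fun x (_ : x ∈ E) => key x K hK
  have s2 := sum_le_sum fun x (_ : x ∈ Eᶜ) => key x N hN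
  have s3 := sum_add_sum_compl E fun x => p.coeff x
  have s4 := sum_add_sum_compl E fun x => negMulLog (p.coeff x)
  rw [hp.2] at s3
  simp only [sum_sub_distrib, sum_add_distrib, ← sum_mul, sum_const, nsmul_eq_mul] at s1 s2
  have c1 : (E.card : ℝ) * (1 / K) ≤ 1 := by rwa [mul_one_div, div_le_one hK]
  have c2 : ((Eᶜ).card : ℝ) * (1 / N) ≤ 1 := by
    rw [mul_one_div, div_le_one hN]
    exact (Nat.cast_le.2 (card_le_univ _)).trans h2
  rw [show ∑ x ∈ Eᶜ, p.coeff x = 1 - ∑ x ∈ E, p.coeff x by linarith] at s2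
  rw [H, ← s4]
  nlinarith

omit [Fintype G] [DecidableEq G] in
theorem expand {ι : Type} (N q : ℕ) (g0 : G) (g : ι → G) (I : Finset ι) [DecidableEq I] :
    dig N g0 * ∏ i ∈ I, dig q (g i) = (1 / (N * q ^ I.card) : ℝ) •
      ∑ z ∈ range N ×ˢ Fintype.piFinset (fun _ : I => range q),
        e (z.1 • g0 + ∑ i : I, z.2 i • g i) := by
  have he : ∀ f : I → G, e (∑ i, f i) = ∏ i, e (f i) := fun f => by
    refine Finset.induction_on (univ : Finset I) (by simp [e_zero]) fun a s ha ih => ?_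
    rw [sum_insert ha, prod_insert ha, e_add, ih]
  rw [← prod_coe_sort I]
  simp only [dig, Finset.prod_smul, smul_mul_smul_comm, prod_univ_sum, sum_product, e_add, he,
    sum_mul_sum, prod_const, card_univ, Fintype.card_coe]
  congr 1
  rw [one_div_pow, one_div_mul_one_div]

omit [Fintype G] in
theorem mass {ι : Type} (s : Finset ι) (f : ι → G) (c : ℝ) (E : Finset G) :
    ∑ x ∈ E, (c • ∑ z ∈ s, e (f z)).coeff x = c * #{z ∈ s | f z ∈ E} := by
  simp only [AddMonoidAlgebra.coeff_smul_apply, AddMonoidAlgebra.coeff_sum,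
    Finsupp.finsetSum_apply, smul_eq_mul, ← mul_sum, e_coeff]
  rw [sum_comm]
  simp

end Pool.Agent.Work.MP_baf0bc_nt.Ne
end

section
/-! A one-letter entropy inequality on three points. -/

set_option autoImplicit false

open Real Set

namespace Pool.Agent.Work.MP_baf0bc_nt.Ne.Sh

noncomputable def lam : ℝ := log (3 / 2) / log 3

lemma log3_pos : 0 < log 3 := log_pos (by norm_num)

lemma lam_mul : lam * log 3 = log 3 - log 2 := by
  unfold lam
  rw [div_mul_cancel₀ _ log3_pos.ne', log_div (by norm_num) (by norm_num)]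

lemma lam_ge : 7 / 20 ≤ lam := by
  have h : log ((2 : ℝ) ^ 20) ≤ log ((3 : ℝ) ^ 13) := log_le_log (by norm_num) (by norm_num)
  rw [log_pow, log_pow] at h
  have h1 := lam_mul
  have h2 := log3_pos
  push_cast at h
  by_contra hc
  push Not at hc
  nlinarith

lemma lam_lt : lam < 1 / 2 := by
  have h : log (3 : ℝ) < log ((2 : ℝ) ^ 2) := log_lt_log (by norm_num) (by norm_num)
  rw [log_pow] at h
  have h1 := lam_mul
  have h2 := log3_pos
  push_cast at h
  by_contra hc
  push Not at hc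
  nlinarith

noncomputable def psi (t : ℝ) : ℝ :=
  negMulLog (1 - t) + (1 - 2 * lam) * negMulLog t - t * log 2 - lam * negMulLog (1 - 2 * t)

noncomputable def chi (t : ℝ) : ℝ :=
  log (1 - t) - log 2 - (1 - 2 * lam) * log t - 2 * lam * log (1 - 2 * t)

lemma psi_deriv {t : ℝ} (h0 : 0 < t) (h1 : t < 1 / 2) : HasDerivAt psi (chi t) t := by
  have a1 : HasDerivAt (fun t : ℝ => 1 - t) (-1) t := by
    simpa using (hasDerivAt_id t).const_sub 1
  have a2 : HasDerivAt (fun t : ℝ => 1 - 2 * t) (-2) t := by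
    simpa using ((hasDerivAt_id t).const_mul 2).const_sub 1
  have b1 := (hasDerivAt_negMulLog (x := 1 - t) (by linarith)).comp t a1
  have b2 := (hasDerivAt_negMulLog (x := 1 - 2 * t) (by linarith)).comp t a2
  have b3 := hasDerivAt_negMulLog (x := t) h0.ne'
  have b4 : HasDerivAt (fun t : ℝ => t * log 2) (log 2) t := by
    simpa using (hasDerivAt_id t).mul_const (log 2)
  have := ((b1.add (b3.const_mul (1 - 2 * lam))).sub b4).sub (b2.const_mul lam)
  refine HasDerivAt.congr_deriv this ?_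
  unfold chi
  ring

lemma chi_deriv {t : ℝ} (h0 : 0 < t) (h1 : t < 1 / 2) :
    HasDerivAt chi ((t * (2 - 2 * lam) - (1 - 2 * lam)) / (t * (1 - t) * (1 - 2 * t))) t := by
  have a1 : HasDerivAt (fun t : ℝ => 1 - t) (-1) t := by
    simpa using (hasDerivAt_id t).const_sub 1
  have a2 : HasDerivAt (fun t : ℝ => 1 - 2 * t) (-2) t := by
    simpa using ((hasDerivAt_id t).const_mul 2).const_sub 1
  have c1 : (1 - t) ≠ 0 := by linarith
  have c2 : (1 - 2 * t) ≠ 0 := by linarith
  have b1 := a1.log c1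
  have b2 := a2.log c2
  have b3 := hasDerivAt_log h0.ne'
  have := ((b1.sub_const (log 2)).sub (b3.const_mul (1 - 2 * lam))).sub (b2.const_mul (2 * lam))
  refine HasDerivAt.congr_deriv this ?_
  have := h0.ne'
  have c3 : 1 - t * 2 ≠ 0 := by linarith
  field_simp
  ring

lemma psi_cont : Continuous psi := by
  unfold psi
  fun_prop

lemma psi_zero : psi 0 = 0 := by simp [psi]

lemma psi_third : psi (1 / 3) = 0 := by
  have h1 : log (1 / 3 : ℝ) = -log 3 := by rw [one_div, log_inv]
  have h2 : log (2 / 3 : ℝ) = log 2 - log 3 := log_div (by norm_num) (by norm_num)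
  have h3 := lam_mul
  unfold psi negMulLog
  rw [show (1 : ℝ) - 1 / 3 = 2 / 3 by norm_num, show (1 : ℝ) - 2 * (1 / 3) = 1 / 3 by norm_num, h1, h2]
  linear_combination (-1 : ℝ) * h3

lemma chi_third : chi (1 / 3) = 0 := by
  have h1 : log (1 / 3 : ℝ) = -log 3 := by rw [one_div, log_inv]
  have h2 : log (2 / 3 : ℝ) = log 2 - log 3 := log_div (by norm_num) (by norm_num)
  unfold chi
  rw [show (1 : ℝ) - 1 / 3 = 2 / 3 by norm_num, show (1 : ℝ) - 2 * (1 / 3) = 1 / 3 by norm_num, h1, h2]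
  ring

lemma psi_nonneg {t : ℝ} (h0 : 0 ≤ t) (h1 : t ≤ 1 / 3) : 0 ≤ psi t := by
  have l1 := lam_ge
  have l2 := lam_lt
  set u : ℝ := (1 - 2 * lam) / (2 - 2 * lam) with hu
  have hd : 0 < 2 - 2 * lam := by linarith
  have hu' : u * (2 - 2 * lam) = 1 - 2 * lam := div_mul_cancel₀ _ hd.ne'
  have u0 : 0 < u := div_pos (by linarith) hd
  have u1 : u < 1 / 3 := by rw [hu, div_lt_iff₀ hd]; linarith
  have den : ∀ x : ℝ, 0 < x → x < 1 / 2 → 0 < x * (1 - x) * (1 - 2 * x) := fun x a b =>
    mul_pos (mul_pos a (by linarith)) (by linarith)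
  have m1 : MonotoneOn chi (Icc u (1 / 3)) := by
    refine monotoneOn_of_deriv_nonneg (convex_Icc _ _) (fun x hx => ?_) (fun x hx => ?_) (fun x hx => ?_)
    · exact (chi_deriv (by linarith [hx.1]) (by linarith [hx.2])).continuousAt.continuousWithinAt
    · rw [interior_Icc] at hx
      exact (chi_deriv (by linarith [hx.1]) (by linarith [hx.2])).differentiableAt.differentiableWithinAt
    · rw [interior_Icc] at hx
      rw [(chi_deriv (by linarith [hx.1]) (by linarith [hx.2])).deriv]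
      refine div_nonneg ?_ (den x (by linarith [hx.1]) (by linarith [hx.2])).le
      nlinarith [hx.1]
  have m2 : AntitoneOn psi (Icc u (1 / 3)) := by
    refine antitoneOn_of_deriv_nonpos (convex_Icc _ _) psi_cont.continuousOn (fun x hx => ?_) (fun x hx => ?_)
    · rw [interior_Icc] at hx
      exact (psi_deriv (by linarith [hx.1]) (by linarith [hx.2])).differentiableAt.differentiableWithinAt
    · rw [interior_Icc] at hx
      rw [(psi_deriv (by linarith [hx.1]) (by linarith [hx.2])).deriv, ← chi_third]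
      exact m1 ⟨hx.1.le, hx.2.le⟩ ⟨u1.le, le_rfl⟩ hx.2.le
  have r1 : ∀ x, u ≤ x → x ≤ 1 / 3 → 0 ≤ psi x := fun x a b => by
    rw [← psi_third]; exact m2 ⟨a, b⟩ ⟨u1.le, le_rfl⟩ b
  rcases le_total u t with h | h
  · exact r1 t h h1
  have m3 : AntitoneOn chi (Ioo 0 u) := by
    refine antitoneOn_of_deriv_nonpos (convex_Ioo _ _) (fun x hx => ?_) (fun x hx => ?_) (fun x hx => ?_)
    · exact (chi_deriv hx.1 (by linarith [hx.2])).continuousAt.continuousWithinAt
    · rw [interior_Ioo] at hx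
      exact (chi_deriv hx.1 (by linarith [hx.2])).differentiableAt.differentiableWithinAt
    · rw [interior_Ioo] at hx
      rw [(chi_deriv hx.1 (by linarith [hx.2])).deriv]
      refine div_nonpos_of_nonpos_of_nonneg ?_ (den x hx.1 (by linarith [hx.2])).le
      nlinarith [hx.2]
  have m4 : ConcaveOn ℝ (Icc 0 u) psi := by
    refine AntitoneOn.concaveOn_of_deriv (convex_Icc _ _) psi_cont.continuousOn (fun x hx => ?_) ?_
    · rw [interior_Icc] at hx
      exact (psi_deriv hx.1 (by linarith [hx.2])).differentiableAt.differentiableWithinAt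
    · rw [interior_Icc]
      intro x hx y hy hxy
      rw [(psi_deriv hx.1 (by linarith [hx.2])).deriv, (psi_deriv hy.1 (by linarith [hy.2])).deriv]
      exact m3 hx hy hxy
  have := m4.min_le_of_mem_Icc (x := 0) (y := u) (z := t) ⟨le_rfl, u0.le⟩ ⟨u0.le, le_rfl⟩ ⟨h0, h⟩
  rw [psi_zero] at this
  exact le_trans (le_min le_rfl (r1 u le_rfl u1.le)) this

lemma log_up {x : ℝ} (h : 1 ≤ x) : x * log x ≤ (x ^ 2 - 1) / 2 := by
  have h0 : 0 < x := by linarith
  have h1 : log x ≤ sinh (log x) := self_le_sinh_iff.2 (log_nonneg h)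
  rw [sinh_log h0] at h1
  have := mul_le_mul_of_nonneg_left h1 h0.le
  refine this.trans (le_of_eq ?_)
  field_simp

lemma log_dn {x : ℝ} (h0 : 0 ≤ x) (h : x ≤ 1) : (x ^ 2 - 1) / 2 ≤ x * log x := by
  rcases h0.eq_or_lt with rfl | h0
  · norm_num
  have h1 : sinh (log x) ≤ log x := sinh_le_self_iff.2 (log_nonpos h0.le h)
  rw [sinh_log h0] at h1
  have := mul_le_mul_of_nonneg_left h1 h0.le
  refine le_trans (le_of_eq ?_) this
  field_simp

lemma k_lo {z : ℝ} (h0 : 0 ≤ z) (h1 : z ≤ 1) :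
    5 / 6 * z ^ 2 ≤ (1 + z) * log (1 + z) + (1 - z) * log (1 - z) := by
  have a := le_log_one_add_of_nonneg h0
  have b := log_dn (x := 1 - z) (by linarith) (by linarith)
  have c : z + z ^ 2 / 3 ≤ (1 + z) * (2 * z / (z + 2)) := by
    rw [← mul_div_assoc, le_div_iff₀ (by linarith)]
    nlinarith [mul_nonneg (mul_nonneg h0 h0) (sub_nonneg.2 h1)]
  have d := mul_le_mul_of_nonneg_left a (by linarith : 0 ≤ 1 + z)
  nlinarith

lemma k_hi {w : ℝ} (h0 : 0 ≤ w) (h1 : w ≤ 1 / 2) :
    (1 + w) * log (1 + w) + (1 - w) * log (1 - w) ≤ 7 / 6 * w ^ 2 := by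
  have hw : 0 < 1 - w := by linarith
  have a := le_log_one_add_of_nonneg (x := w / (1 - w)) (by positivity)
  have e1 : 1 + w / (1 - w) = (1 - w)⁻¹ := by field_simp; ring
  have e2 : 2 * (w / (1 - w)) / (w / (1 - w) + 2) = 2 * w / (2 - w) := by
    have : (2 - w) ≠ 0 := by linarith
    have : w / (1 - w) + 2 = (2 - w) / (1 - w) := by field_simp; ring
    rw [this]; field_simp
  rw [e1, e2, log_inv] at a
  have b := log_up (x := 1 + w) (by linarith)
  have c : w - 2 / 3 * w ^ 2 ≤ (1 - w) * (2 * w / (2 - w)) := by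
    rw [← mul_div_assoc, le_div_iff₀ (by linarith)]
    nlinarith [mul_nonneg (mul_nonneg h0 h0) (sub_nonneg.2 h1)]
  have d := mul_le_mul_of_nonneg_left a hw.le
  nlinarith

lemma split (t z : ℝ) : 2 * negMulLog t - negMulLog (t * (1 + z)) - negMulLog (t * (1 - z))
    = t * ((1 + z) * log (1 + z) + (1 - z) * log (1 - z)) := by
  rw [negMulLog_mul, negMulLog_mul]
  unfold negMulLog
  ring

lemma core_le {a b c : ℝ} (ha : 0 ≤ a) (hab : a ≤ b) (hc : 1 / 3 ≤ c) (h : a + b + c = 1) :
    lam * (negMulLog a + negMulLog b + negMulLog c)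
      ≤ (negMulLog (1 - a) + negMulLog (1 - b) + negMulLog (1 - c)) / 2 := by
  obtain ⟨t, ht⟩ : ∃ t, t = (a + b) / 2 := ⟨_, rfl⟩
  obtain ⟨d, hd⟩ : ∃ d, d = (b - a) / 2 := ⟨_, rfl⟩
  have t0 : 0 ≤ t := by linarith
  have t1 : t ≤ 1 / 3 := by linarith
  have hp := psi_nonneg t0 t1
  have e1 : c = 1 - 2 * t := by linarith
  have e2 : negMulLog (1 - c) = 2 * negMulLog t - 2 * t * log 2 := by
    rw [show 1 - c = 2 * t by linarith, negMulLog_mul]
    unfold negMulLog; ring
  unfold psi at hp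
  rw [e2, e1]
  rcases t0.eq_or_lt with h0 | h0
  · have : a = t := by linarith
    have : b = t := by linarith
    subst a; subst b
    linarith
  have d0 : 0 ≤ d := by linarith
  have s0 : 0 < 1 - t := by linarith
  have k1 := k_lo (z := d / t) (by positivity) (by rw [div_le_one h0]; linarith)
  have k2 := k_hi (w := d / (1 - t)) (by positivity) (by rw [div_le_iff₀ s0]; linarith)
  have s1 := split t (d / t)
  have s2 := split (1 - t) (d / (1 - t))
  rw [show t * (1 + d / t) = b by field_simp; linarith, show t * (1 - d / t) = a by field_simp; linarith] at s1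
  rw [show (1 - t) * (1 + d / (1 - t)) = 1 - a by field_simp; linarith,
    show (1 - t) * (1 - d / (1 - t)) = 1 - b by field_simp; linarith] at s2
  have k3 := mul_le_mul_of_nonneg_left k1 t0
  have k4 := mul_le_mul_of_nonneg_left k2 s0.le
  rw [← s1] at k3
  rw [← s2] at k4
  have k5 : (1 - t) * (7 / 6 * (d / (1 - t)) ^ 2) ≤ 7 / 10 * (t * (5 / 6 * (d / t) ^ 2)) := by
    have : (1 - t) * (7 / 6 * (d / (1 - t)) ^ 2) = 7 / 6 * d ^ 2 / (1 - t) := by field_simp
    rw [this]
    have : 7 / 10 * (t * (5 / 6 * (d / t) ^ 2)) = 7 / 6 * d ^ 2 / (2 * t) := by field_simp; ring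
    rw [this]
    exact div_le_div_of_nonneg_left (by positivity) (by linarith) (by linarith)
  have k6 : 0 ≤ t * (5 / 6 * (d / t) ^ 2) := by positivity
  have k7 := mul_le_mul lam_ge k3 k6 (by linarith [lam_ge])
  linarith

lemma core {a b c : ℝ} (ha : 0 ≤ a) (hb : 0 ≤ b) (hc : 0 ≤ c) (h : a + b + c = 1) :
    lam * (negMulLog a + negMulLog b + negMulLog c)
      ≤ (negMulLog (1 - a) + negMulLog (1 - b) + negMulLog (1 - c)) / 2 := by
  by_cases h1 : 1 / 3 ≤ c
  · rcases le_total a b with h2 | h2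
    · exact core_le ha h2 h1 h
    · linarith [core_le hb h2 h1 (by linarith)]
  by_cases h2 : 1 / 3 ≤ b
  · rcases le_total a c with h3 | h3
    · linarith [core_le ha h3 h2 (by linarith)]
    · linarith [core_le hc h3 h2 (by linarith)]
  have h3 : 1 / 3 ≤ a := by push Not at h1 h2; linarith
  rcases le_total b c with h4 | h4
  · linarith [core_le hb h4 h3 (by linarith)]
  · linarith [core_le hc h4 h3 (by linarith)]

end Pool.Agent.Work.MP_baf0bc_nt.Ne.Sh
end

section
/-! Peeling of ternary digits: the block inequality over the natural numbers, in dual form. -/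

set_option autoImplicit false

open Finset Real

namespace Pool.Agent.Work.MP_baf0bc_nt.Ne.Sh

lemma gibbs1 {m q : ℝ} (hm : 0 ≤ m) (hq : 0 < q) : negMulLog m ≤ -(m * log q) + q - m := by
  rcases hm.eq_or_lt with rfl | k
  · simp [hq.le]
  · have := log_le_sub_one_of_pos (x := q / m) (by positivity)
    rw [log_div hq.ne' k.ne'] at this
    have l := mul_le_mul_of_nonneg_left this k.le
    have k2 : m * (q / m - 1) = q - m := by field_simp
    rw [negMulLog]
    nlinarith

lemma three {a b c A B C s : ℝ} (ha : 0 ≤ a) (hb : 0 ≤ b) (hc : 0 ≤ c) (hA : 0 < A) (hB : 0 < B)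
    (hC : 0 < C) (hs : A + B + C ≤ s) :
    (a + b + c) * (log 2 - log s)
      + lam * (negMulLog a + negMulLog b + negMulLog c - negMulLog (a + b + c))
      ≤ -((a + b) / 2 * log A) - (b + c) / 2 * log B - (a + c) / 2 * log C := by
  have m0 : 0 ≤ a + b + c := by positivity
  rcases m0.eq_or_lt with h | h
  · have h1 : a = 0 := by linarith
    have h2 : b = 0 := by linarith
    have h3 : c = 0 := by linarith
    subst h1 h2 h3
    simp
  obtain ⟨m, hm⟩ : ∃ m, m = a + b + c := ⟨_, rfl⟩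
  rw [← hm] at h ⊢
  obtain ⟨x, rfl⟩ : ∃ x, a = m * x := ⟨a / m, by field_simp⟩
  obtain ⟨y, rfl⟩ : ∃ y, b = m * y := ⟨b / m, by field_simp⟩
  obtain ⟨z, rfl⟩ : ∃ z, c = m * z := ⟨c / m, by field_simp⟩
  have x0 : 0 ≤ x := nonneg_of_mul_nonneg_right ha h |> fun k => by
    exact le_of_mul_le_mul_left (by simpa using ha) h
  have y0 : 0 ≤ y := le_of_mul_le_mul_left (by simpa using hb) h
  have z0 : 0 ≤ z := le_of_mul_le_mul_left (by simpa using hc) h
  have e : x + y + z = 1 := by
    have : m * (x + y + z) = m * 1 := by linarith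
    exact mul_left_cancel₀ h.ne' this
  have s0 : 0 < s := by linarith
  have k := core x0 y0 z0 e
  have half : ∀ t : ℝ, negMulLog ((1 - t) / 2) = negMulLog (1 - t) / 2 + (1 - t) / 2 * log 2 := by
    intro t
    rw [div_eq_mul_inv, negMulLog_mul]
    simp only [negMulLog, log_inv]
    ring
  have g1 := gibbs1 (m := (1 - z) / 2) (q := A / s) (by linarith) (by positivity)
  have g2 := gibbs1 (m := (1 - x) / 2) (q := B / s) (by linarith) (by positivity)
  have g3 := gibbs1 (m := (1 - y) / 2) (q := C / s) (by linarith) (by positivity)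
  rw [half, log_div hA.ne' s0.ne'] at g1
  rw [half, log_div hB.ne' s0.ne'] at g2
  rw [half, log_div hC.ne' s0.ne'] at g3
  have g4 : A / s + B / s + C / s ≤ 1 := by
    rw [← add_div, ← add_div, div_le_one s0]; exact hs
  have ez : z = 1 - x - y := by linarith
  have g5 : log 2 - log s + lam * (negMulLog x + negMulLog y + negMulLog z)
      ≤ -((x + y) / 2 * log A) - (y + z) / 2 * log B - (x + z) / 2 * log C := by
    subst ez
    nlinarith
  have g6 := mul_le_mul_of_nonneg_left g5 h.le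
  simp only [negMulLog_mul]
  have g7 : x * negMulLog m + y * negMulLog m + z * negMulLog m = negMulLog m := by
    rw [← add_mul, ← add_mul, e, one_mul]
  have g8 : lam * (x * negMulLog m + m * negMulLog x + (y * negMulLog m + m * negMulLog y)
      + (z * negMulLog m + m * negMulLog z) - negMulLog m)
      = m * (lam * (negMulLog x + negMulLog y + negMulLog z)) := by
    linear_combination lam * g7
  rw [g8]
  linarith

noncomputable def av : ℕ → (ℕ → ℝ) → ℝ
  | 0, F => F 0
  | n + 1, F => (av n (fun y => F (3 * y)) + av n fun y => F (2 ^ n + 3 * y)) / 2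

def MM : ℕ → ℕ
  | 0 => 1
  | n + 1 => 3 * MM n + 2 ^ n

lemma MM_add (n : ℕ) : MM n + 2 ^ n = 2 * 3 ^ n := by
  induction n with
  | zero => rfl
  | succ n ih => rw [MM, pow_succ, pow_succ]; omega

lemma MM_pos (n : ℕ) : 0 < MM n := by
  cases n with
  | zero => exact one_pos
  | succ n => rw [MM]; positivity

lemma sum3 (F : ℕ → ℝ) (N : ℕ) : ∑ x ∈ range (3 * N), F x
    = ∑ x ∈ range N, F (3 * x) + ∑ x ∈ range N, F (3 * x + 1) + ∑ x ∈ range N, F (3 * x + 2) := by
  induction N with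
  | zero => simp
  | succ N ih =>
    rw [show 3 * (N + 1) = 3 * N + 1 + 1 + 1 by ring]
    simp only [sum_range_succ, ih]
    ring

lemma shift {F : ℕ → ℝ} (hF : ∀ t, 0 < F t) {e R M : ℕ} (h : e / 3 + R ≤ M) :
    ∑ t ∈ range R, F (e + 3 * t) ≤ ∑ t ∈ range M, F (3 * t + e % 3) := by
  calc ∑ t ∈ range R, F (e + 3 * t) = ∑ t ∈ range R, F (3 * (e / 3 + t) + e % 3) :=
        sum_congr rfl fun t _ => by congr 1; omega
    _ = ∑ t ∈ Ico (e / 3) (e / 3 + R), F (3 * t + e % 3) := by
        rw [sum_Ico_eq_sum_range, Nat.add_sub_cancel_left]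
    _ ≤ _ := sum_le_sum_of_subset_of_nonneg
        (fun t ht => by simp only [mem_Ico, mem_range] at ht ⊢; omega) fun t _ _ => (hF _).le

theorem peel (n : ℕ) : ∀ (w r : ℕ → ℝ) (s : ℝ), (∀ x, 0 ≤ w x) → (∀ t, 0 < r t) →
    ∑ t ∈ range (3 * MM n), r t ≤ s →
    (∑ x ∈ range (3 ^ n), w x) * (n * log 2 - log s)
      + lam * (∑ x ∈ range (3 ^ n), negMulLog (w x) - negMulLog (∑ x ∈ range (3 ^ n), w x))
      ≤ ∑ x ∈ range (3 ^ n), w x * av n fun y => -log (r (x + y)) := by
  induction n with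
  | zero =>
    intro w r s hw hr hs
    simp only [MM, mul_one, sum_range_succ, sum_range_zero, zero_add] at hs
    have := log_le_log (hr 0) (show r 0 ≤ s by linarith [hr 1, hr 2])
    simp only [pow_zero, sum_range_one, av, sub_self, mul_zero, add_zero, Nat.cast_zero, zero_mul,
      zero_sub]
    exact mul_le_mul_of_nonneg_left (by linarith) (hw 0)
  | succ n ih =>
    intro w r s hw hr hs
    rw [sum3] at hs
    obtain ⟨S, hS⟩ : ∃ S : ℕ → ℝ, S = fun d => ∑ t ∈ range (MM (n + 1)), r (3 * t + d) := ⟨_, rfl⟩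
    have S0 : ∀ d, 0 < S d := fun d => by
      rw [hS]; exact sum_pos (fun t _ => hr _) ⟨0, mem_range.2 (MM_pos _)⟩
    have hs' : S 0 + S 1 + S 2 ≤ s := by simpa [hS] using hs
    have u1 : 1 ≤ 2 ^ n := Nat.one_le_two_pow
    have key : ∀ d e : ℕ, e ≤ 2 + 2 ^ n →
        (∑ x ∈ range (3 ^ n), w (3 * x + d)) * (n * log 2 - log (S (e % 3)))
        + lam * (∑ x ∈ range (3 ^ n), negMulLog (w (3 * x + d))
          - negMulLog (∑ x ∈ range (3 ^ n), w (3 * x + d)))
        ≤ ∑ x ∈ range (3 ^ n), w (3 * x + d) * av n fun y => -log (r (e + 3 * (x + y))) := by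
      intro d e he
      refine ih (fun x => w (3 * x + d)) (fun t => r (e + 3 * t)) _ (fun x => hw _) (fun t => hr _) ?_
      rw [hS]
      exact shift hr (by rw [MM]; omega)
    have rw1 : ∀ d : ℕ, ∑ x ∈ range (3 ^ n), w (3 * x + d) * av (n + 1) (fun y => -log (r (3 * x + d + y)))
        = (∑ x ∈ range (3 ^ n), w (3 * x + d) * av n (fun y => -log (r (d + 3 * (x + y))))
          + ∑ x ∈ range (3 ^ n), w (3 * x + d) * av n fun y => -log (r (d + 2 ^ n + 3 * (x + y)))) / 2 := by
      intro d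
      rw [← sum_add_distrib, sum_div]
      refine sum_congr rfl fun x _ => ?_
      rw [av, show (fun y => -log (r (3 * x + d + 3 * y))) = fun y => -log (r (d + 3 * (x + y))) from
          funext fun y => by congr 3; ring,
        show (fun y => -log (r (3 * x + d + (2 ^ n + 3 * y))))
          = fun y => -log (r (d + 2 ^ n + 3 * (x + y))) from funext fun y => by congr 3; ring]
      ring
    have a0 := key 0 0 (by omega)
    have a1 := key 1 1 (by omega)
    have a2 := key 2 2 (by omega)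
    have b0 := key 0 (0 + 2 ^ n) (by omega)
    have b1 := key 1 (1 + 2 ^ n) (by omega)
    have b2 := key 2 (2 + 2 ^ n) (by omega)
    have r0 := rw1 0
    have r1 := rw1 1
    have r2 := rw1 2
    rw [pow_succ, mul_comm (3 ^ n) 3]
    simp only [sum3]
    simp only [add_zero] at a0 b0 r0
    rw [r0, r1, r2]
    have w0 : 0 ≤ ∑ x ∈ range (3 ^ n), w (3 * x) := sum_nonneg fun x _ => hw _
    have w1 : 0 ≤ ∑ x ∈ range (3 ^ n), w (3 * x + 1) := sum_nonneg fun x _ => hw _
    have w2 : 0 ≤ ∑ x ∈ range (3 ^ n), w (3 * x + 2) := sum_nonneg fun x _ => hw _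
    have hu : 2 ^ n % 3 = 1 ∨ 2 ^ n % 3 = 2 := by
      have : ¬ 3 ∣ 2 ^ n := fun h => by
        have := (Nat.prime_three.dvd_of_dvd_pow h); omega
      omega
    rw [show 0 % 3 = 0 by rfl] at a0
    rw [show 1 % 3 = 1 by rfl] at a1
    rw [show 2 % 3 = 2 by rfl] at a2
    push_cast
    rcases hu with hu | hu
    · rw [show (0 + 2 ^ n) % 3 = 1 by omega] at b0
      rw [show (1 + 2 ^ n) % 3 = 2 by omega] at b1
      rw [show (2 + 2 ^ n) % 3 = 0 by omega] at b2
      have t := three w0 w1 w2 (S0 1) (S0 2) (S0 0) (s := s) (by linarith)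
      linarith
    · rw [show (0 + 2 ^ n) % 3 = 2 by omega] at b0
      rw [show (1 + 2 ^ n) % 3 = 0 by omega] at b1
      rw [show (2 + 2 ^ n) % 3 = 1 by omega] at b2
      have t := three w0 w1 w2 (S0 0) (S0 1) (S0 2) (s := s) (by linarith)
      linarith

end Pool.Agent.Work.MP_baf0bc_nt.Ne.Sh
end

section
/-! The sharp block inequality on a finite abelian group. -/

set_option autoImplicit false

open Finset Real

namespace Pool.Agent.Work.MP_baf0bc_nt.Ne.Sh

variable {G : Type} [AddCommGroup G] [Fintype G] [DecidableEq G]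

noncomputable def blk (q n : ℕ) (h : G) : A G :=
  ∏ j ∈ range n, dig q ((2 ^ j * 3 ^ (n - 1 - j) : ℕ) • h)

omit [Fintype G] [DecidableEq G] in
lemma blk_succ (q n : ℕ) (h : G) : blk q (n + 1) h = blk q n (3 • h) * dig q (2 ^ n • h) := by
  unfold blk
  rw [prod_range_succ]
  congr 1
  · refine prod_congr rfl fun j hj => ?_
    rw [mem_range] at hj
    rw [smul_smul, show n + 1 - 1 - j = n - 1 - j + 1 by omega, pow_succ, mul_assoc]
  · simp

lemma pr_blk {q : ℕ} (hq : 0 < q) (n : ℕ) (h : G) : Pr (blk q n h) :=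
  pr_prod _ _ fun _ _ => pr_dig hq _

omit [Fintype G] in
lemma dig_coeff (q : ℕ) (g w : G) :
    (dig q g).coeff w = 1 / q * ∑ d ∈ range q, if d • g = w then 1 else 0 := by
  simp only [dig, AddMonoidAlgebra.coeff_smul_apply, AddMonoidAlgebra.coeff_sum,
    Finsupp.finsetSum_apply, smul_eq_mul, e_coeff]

lemma ex_dig (q : ℕ) (g : G) (f : G → ℝ) :
    ∑ w, (dig q g).coeff w * f w = 1 / q * ∑ d ∈ range q, f (d • g) := by
  simp only [dig_coeff, mul_assoc, ← mul_sum, sum_mul]
  rw [sum_comm]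
  simp

lemma ex_blk (n : ℕ) : ∀ (h : G) (f : G → ℝ),
    ∑ w, (blk 2 n h).coeff w * f w = av n fun y => f (y • h) := by
  induction n with
  | zero =>
    intro h f
    have : blk 2 0 h = e 0 := by simp [blk, e_zero]
    simp [this, e_coeff, av]
  | succ n ih =>
    intro h f
    rw [blk_succ, ex_mul, av]
    simp only [mul_assoc, ← mul_sum]
    have k : ∀ x : G, ∑ y, (dig 2 (2 ^ n • h)).coeff y * f (x + y)
        = f x / 2 + f (x + 2 ^ n • h) / 2 := fun x => by
      rw [ex_dig 2 _ fun y => f (x + y)]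
      simp [sum_range_succ]
      ring
    simp only [k, mul_add, sum_add_distrib, ← mul_div_assoc, ← sum_div]
    rw [ih (3 • h) f, ih (3 • h) fun x => f (x + 2 ^ n • h), ← add_div]
    congr 2
    · congr 1; funext y; rw [smul_smul, mul_comm]
    · congr 1; funext y; rw [smul_smul, mul_comm, add_smul, add_comm]

omit [DecidableEq G] in
lemma supp_mul {p q : A G} {w : G} (h : (p * q).coeff w ≠ 0) :
    ∃ x y, p.coeff x ≠ 0 ∧ q.coeff y ≠ 0 ∧ w = x + y := by
  rw [cm] at h
  obtain ⟨x, _, hx⟩ := exists_ne_zero_of_sum_ne_zero h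
  exact ⟨x, -x + w, left_ne_zero_of_mul hx, right_ne_zero_of_mul hx, by abel⟩

omit [Fintype G] in
lemma supp_dig {q : ℕ} {g w : G} (h : (dig q g).coeff w ≠ 0) : ∃ d < q, w = d • g := by
  rw [dig_coeff] at h
  obtain ⟨d, hd, hx⟩ := exists_ne_zero_of_sum_ne_zero (right_ne_zero_of_mul h)
  refine ⟨d, mem_range.1 hd, ?_⟩
  by_contra k
  exact hx (if_neg fun k' => k k'.symm)

lemma supp_blk (n : ℕ) : ∀ (h w : G), (blk 3 n h).coeff w ≠ 0 →
    ∃ z : ℕ, z + 2 * 2 ^ n ≤ 2 * 3 ^ n ∧ w = z • h := by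
  induction n with
  | zero =>
    intro h w k
    have : blk 3 0 h = e 0 := by simp [blk, e_zero]
    rw [this, e_coeff] at k
    refine ⟨0, by simp, ?_⟩
    by_contra k'
    exact k (if_neg fun k2 => k' (by simp [← k2]))
  | succ n ih =>
    intro h w k
    rw [blk_succ] at k
    obtain ⟨x, y, hx, hy, rfl⟩ := supp_mul k
    obtain ⟨z, hz, rfl⟩ := ih _ _ hx
    obtain ⟨d, hd, rfl⟩ := supp_dig hy
    refine ⟨z * 3 + d * 2 ^ n, ?_, by rw [smul_smul, smul_smul, add_smul]⟩
    have : d * 2 ^ n ≤ 2 * 2 ^ n := Nat.mul_le_mul_right _ (by omega)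
    rw [pow_succ, pow_succ]
    omega

omit [AddCommGroup G] [DecidableEq G] in
lemma H_supp {p : A G} (hp : Pr p) (E : Finset G) {K : ℝ} (hK : 0 < K) (h1 : (E.card : ℝ) ≤ K)
    (h2 : ∀ x, p.coeff x ≠ 0 → x ∈ E) : H p ≤ log K := by
  have z : ∀ x ∈ (univ : Finset G), x ∉ E → p.coeff x = 0 := fun x _ hx => by
    by_contra k; exact hx (h2 x k)
  have s1 : ∑ x ∈ E, p.coeff x = 1 := by rw [← hp.2]; exact sum_subset (subset_univ E) z
  have s2 : ∑ x ∈ E, negMulLog (p.coeff x) = H p :=
    sum_subset (subset_univ E) fun x a b => by rw [z x a b, negMulLog_zero]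
  have s3 := sum_le_sum fun x (_ : x ∈ E) => gibbs1 (hp.1 x) (inv_pos.2 hK)
  simp only [sum_sub_distrib, sum_add_distrib, sum_neg_distrib, ← sum_mul, sum_const,
    nsmul_eq_mul, s1, s2, log_inv] at s3
  have : (E.card : ℝ) * K⁻¹ ≤ 1 := by rwa [← div_eq_mul_inv, div_le_one hK]
  linarith

omit [DecidableEq G] in
lemma sum_tr (f : G → ℝ) (y : G) : ∑ w, f (w + y) = ∑ w, f w :=
  Equiv.sum_comp (Equiv.addRight y) f

theorem low (h : G) (n : ℕ) {p : A G} (hp : Pr p) :
    (1 - lam) * H (p * dig (3 ^ n) (-h)) + lam * H p - log 12 ≤ H (p * blk 2 n h) := by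
  obtain ⟨N, hN⟩ : ∃ N : ℝ, N = ((3 ^ n : ℕ) : ℝ) := ⟨_, rfl⟩
  have N0 : 0 < N := by rw [hN]; positivity
  have lN : log N = n * log 3 := by rw [hN]; push_cast; exact log_pow _ _
  set q := p * blk 2 n h with hq
  have pq : Pr q := hp.mul (pr_blk two_pos n h)
  have c0 : (0 : ℝ) < Fintype.card G := Nat.cast_pos.2 Fintype.card_pos
  obtain ⟨u, hu⟩ : ∃ u : G → ℝ, u = fun g => q.coeff g + (Fintype.card G : ℝ)⁻¹ := ⟨_, rfl⟩
  have u0 : ∀ g, 0 < u g := fun g => by
    rw [hu]; exact add_pos_of_nonneg_of_pos (pq.1 g) (inv_pos.2 c0)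
  have u2 : ∑ g, u g = 2 := by
    simp only [hu, sum_add_distrib, pq.2, sum_const, card_univ, nsmul_eq_mul]
    rw [mul_inv_cancel₀ c0.ne']; norm_num
  have h1 : ∑ g, q.coeff g * -log (u g) ≤ H q := by
    refine sum_le_sum fun g _ => ?_
    rcases (pq.1 g).eq_or_lt with k | k
    · simp [← k]
    · have : log (q.coeff g) ≤ log (u g) := log_le_log k (by rw [hu]; simp)
      rw [negMulLog]; nlinarith
  have h2 : ∑ g, q.coeff g * -log (u g) = ∑ x, p.coeff x * av n fun y => -log (u (x + y • h)) := by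
    rw [hq, ex_mul p _ fun g => -log (u g)]
    simp only [mul_assoc, ← mul_sum]
    exact sum_congr rfl fun x _ => by rw [ex_blk n h fun y => -log (u (x + y))]
  have tr : ∀ (F : G → ℝ) (R : ℕ), ∑ b, ∑ x ∈ range R, F (b + x • h) = R * ∑ b, F b := by
    intro F R
    rw [sum_comm]
    simp only [sum_tr, sum_const, card_range, nsmul_eq_mul]
  obtain ⟨R, hR⟩ : ∃ R : ℕ, R = 3 * MM n := ⟨_, rfl⟩
  have R0 : (0 : ℝ) < R := by rw [hR]; exact Nat.cast_pos.2 (by have := MM_pos n; omega)
  have R1 : (R : ℝ) ≤ 6 * N := by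
    rw [hR, hN]
    have := MM_add n
    have u1 : 1 ≤ 2 ^ n := Nat.one_le_two_pow
    exact_mod_cast (by omega : 3 * MM n ≤ 6 * 3 ^ n)
  obtain ⟨s, hs⟩ : ∃ s : G → ℝ, s = fun b => ∑ t ∈ range R, u (b + t • h) := ⟨_, rfl⟩
  have s0 : ∀ b, 0 < s b := fun b => by
    rw [hs]; exact sum_pos (fun t _ => u0 _) ⟨0, mem_range.2 (Nat.cast_pos.1 R0)⟩
  have s2 : ∑ b, s b = R * 2 := by rw [hs, tr, u2]
  set r := p * dig (3 ^ n) (-h) with hr
  have pr : Pr r := hp.mul (pr_dig (by positivity) _)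
  have r1 : ∀ b, ∑ x ∈ range (3 ^ n), p.coeff (b + x • h) = N * r.coeff b := fun b => by
    rw [hr, mul_comm p, cm, ex_dig _ _ fun y => p.coeff (-y + b), ← hN, ← mul_assoc,
      mul_one_div_cancel N0.ne', one_mul]
    exact sum_congr rfl fun x _ => by rw [smul_neg, neg_neg, add_comm]
  have k1 : ∀ b, N * r.coeff b * (n * log 2 - log (s b))
      + lam * (∑ x ∈ range (3 ^ n), negMulLog (p.coeff (b + x • h)) - negMulLog (N * r.coeff b))
      ≤ ∑ x ∈ range (3 ^ n), p.coeff (b + x • h) * av n fun y => -log (u (b + x • h + y • h)) := by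
    intro b
    have := peel n (fun x => p.coeff (b + x • h)) (fun t => u (b + t • h)) (s b)
      (fun x => hp.1 _) (fun t => u0 _) (by rw [hs, hR])
    rw [r1] at this
    simpa only [add_smul, add_assoc] using this
  have k2 := sum_le_sum fun b (_ : b ∈ univ) => k1 b
  rw [tr (fun g => p.coeff g * av n fun y => -log (u (g + y • h))), ← h2, ← hN] at k2
  have k3 : ∀ b, negMulLog (r.coeff b)
      ≤ -(r.coeff b * log (s b)) + r.coeff b * log (R * 2) + s b / (R * 2) - r.coeff b := fun b => by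
    have := gibbs1 (pr.1 b) (q := s b / (R * 2)) (div_pos (s0 b) (by positivity))
    rw [log_div (s0 b).ne' (by positivity)] at this
    linarith
  have k4 := sum_le_sum fun b (_ : b ∈ univ) => k3 b
  simp only [sum_sub_distrib, sum_add_distrib, sum_neg_distrib, ← sum_mul, ← sum_div, pr.2, s2,
    div_self (show (R : ℝ) * 2 ≠ 0 by positivity)] at k4
  simp only [negMulLog_mul, mul_sub, mul_assoc, sum_sub_distrib, sum_add_distrib, ← mul_sum,
    ← sum_mul, pr.2, tr fun g => negMulLog (p.coeff g)] at k2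
  rw [← hN] at k2
  have k5 : log (R * 2) ≤ log 12 + log N := by
    rw [← log_mul (by norm_num) N0.ne']
    exact log_le_log (by positivity) (by linarith)
  have k6 := lam_mul
  have e1 : ∑ b, negMulLog (r.coeff b) = H r := rfl
  have e2 : ∑ b, negMulLog (p.coeff b) = H p := rfl
  rw [e1] at k2 k4
  rw [e2, negMulLog, lN] at k2
  rw [lN] at k5
  refine le_trans ?_ h1
  refine le_of_mul_le_mul_left (le_trans ?_ k2) N0
  have k7 : H r ≤ -∑ b, r.coeff b * log (s b) + (log 12 + n * log 3) := by linarith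
  have k8 := mul_le_mul_of_nonneg_left k7 N0.le
  have k9 : N * (n * (lam * log 3)) = N * (n * (log 3 - log 2)) := by rw [k6]
  nlinarith

theorem up (h : G) (n : ℕ) (hinj : ∀ x y : ℕ, x < 2 * 3 ^ n → y < 2 * 3 ^ n → x • h = y • h → x = y)
    {p : A G} (hp : Pr p) : H (p * blk 3 n h) ≤ H (p * dig (3 ^ n) (-h)) + log 3 := by
  have N0 : 0 < 3 ^ n := by positivity
  have pu : Pr (dig (3 ^ n) (-h)) := pr_dig N0 _
  have pz : Pr (blk 3 n h) := pr_blk three_pos n h
  have h1 := H_mono (hp.mul pz) pu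
  have h2 := KV pu hp pz
  have h3 : log ((3 ^ n : ℕ) : ℝ) ≤ H (dig (3 ^ n) (-h)) := by
    refine H_ge pu fun w => ?_
    rw [dig_coeff]
    refine mul_le_of_le_one_right (by positivity) ?_
    rw [sum_boole]
    refine Nat.cast_le_one.2 (card_le_one.2 fun a ha b hb => ?_)
    rw [mem_filter, mem_range] at ha hb
    refine hinj a b (by omega) (by omega) (neg_injective ?_)
    rw [← smul_neg, ← smul_neg, ha.2, hb.2]
  have h4 : H (dig (3 ^ n) (-h) * blk 3 n h) ≤ log (3 * ((3 ^ n : ℕ) : ℝ)) := by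
    refine H_supp (pu.mul pz) ((range (3 * 3 ^ n)).image fun t => t • h - 3 ^ n • h) (by positivity)
      (by exact_mod_cast card_image_le.trans (card_range _).le) fun w hw => ?_
    obtain ⟨x, y, hx, hy, rfl⟩ := supp_mul hw
    obtain ⟨d, hd, rfl⟩ := supp_dig hx
    obtain ⟨z, hz, rfl⟩ := supp_blk n _ _ hy
    have u1 : 1 ≤ 2 ^ n := Nat.one_le_two_pow
    refine mem_image.2 ⟨z + (3 ^ n - d), mem_range.2 (by omega), ?_⟩
    obtain ⟨c, hc⟩ : ∃ c, 3 ^ n = d + c := ⟨3 ^ n - d, by omega⟩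
    rw [hc, Nat.add_sub_cancel_left, add_smul, add_smul, smul_neg]
    abel
  rw [log_mul (by norm_num) (by positivity)] at h4
  rw [mul_comm _ p] at h2
  rw [mul_right_comm] at h1
  linarith

end Pool.Agent.Work.MP_baf0bc_nt.Ne.Sh

namespace Pool.Agent.Work.MP_baf0bc_nt.Ne

theorem blockS {G : Type} [AddCommGroup G] [Fintype G] [DecidableEq G] (h : G) (n : ℕ)
    (hinj : ∀ x y : ℕ, x < 2 * 3 ^ n → y < 2 * 3 ^ n → x • h = y • h → x = y) {p : A G} (hp : Pr p) :
    log 2 / log 3 * H (p * ∏ j ∈ range n, dig 3 ((2 ^ j * 3 ^ (n - 1 - j) : ℕ) • h))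
      + (1 - log 2 / log 3) * H p - 4
      ≤ H (p * ∏ j ∈ range n, dig 2 ((2 ^ j * 3 ^ (n - 1 - j) : ℕ) • h)) := by
  have h1 := Sh.low h n hp
  have h2 := Sh.up h n hinj hp
  have l3 := Sh.log3_pos
  have e1 : log 2 / log 3 = 1 - Sh.lam := by
    rw [div_eq_iff l3.ne']; linarith [Sh.lam_mul]
  have l1 := Sh.lam_ge
  have l2 := Sh.lam_lt
  have h3 := mul_le_mul_of_nonneg_left h2 (show 0 ≤ 1 - Sh.lam by linarith)
  have h4 : log 12 + log 3 ≤ 4 := by
    rw [← log_mul (by norm_num) (by norm_num), log_le_iff_le_exp (by norm_num)]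
    have a := exp_one_gt_d9
    have b : exp 4 = exp 1 ^ 4 := by rw [← exp_nat_mul]; norm_num
    rw [b]
    calc (12 * 3 : ℝ) ≤ 2.7 ^ 4 := by norm_num
      _ ≤ _ := pow_le_pow_left₀ (by norm_num) (by linarith) 4
  have h5 : 0 ≤ Sh.lam * log 3 := by positivity
  unfold Sh.blk at h1 h3
  rw [e1]
  nlinarith

end Pool.Agent.Work.MP_baf0bc_nt.Ne
end
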