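import Pool.Agent.Lib.Subspace.CoreG
import Pool.Agent.Work.MP_baf0bc_nt.Ne.Ent

section
/-! A consequence of the Subspace Theorem: several blocks are jointly independent 2-adically. -/

set_option autoImplicit false

open Filter Real Finset

namespace Pool.Agent.Work.MP_baf0bc_nt.Ne

open Pool.Agent.Lib.Subspace

theorem dio (m : ℕ) {ε : ℝ} (hε : 0 < ε) : ∀ᶠ s : ℕ in atTop, ∀ (L M j : ℕ) (X : ℕ → ℤ),
    m * s ≤ L → L ≤ 2 * m * s → |X 0| ≤ 2 ^ L → (∀ k, k ≠ 0 → |(X k : ℝ)| * exp (ε * s) ≤ 3 ^ s) →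
    #{k ∈ range (m + 1) | k ≠ 0 ∧ X k ≠ 0} ≤ j → 3 ^ (s * (j + 1)) * 2 ^ L ≤ 2 ^ M →
    (2 : ℤ) ^ M ∣ ∑ k ∈ range (m + 1), X k * 2 ^ ((k - 1) * s) * 3 ^ ((m - k) * s) →
    ∀ k ∈ range (m + 1), X k = 0 := by
  by_contra h
  rw [not_eventually] at h
  obtain ⟨U, hU⟩ := Ultrafilter.exists_le (_ ⊓ 𝓟 _) (h := frequently_iff_neBot.1 h)
  rw [le_inf_iff, le_principal_iff] at hU
  let p2 : Nat.Primes := ⟨2, Nat.prime_two⟩
  let p3 : Nat.Primes := ⟨3, Nat.prime_three⟩
  have hne : p2 ≠ p3 := fun k => absurd (congrArg Subtype.val k) (by decide)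
  have hS : ∀ᶠ s : ℕ in (U : Filter ℕ), ∃ S : (range (m + 1)).powerset,
      CData (Fintype.card S.1) {p2, p3} (6 * m + 2) 1 (ε / 2) 0 s := by
    filter_upwards [hU.2, hU.1 (eventually_ge_atTop 1)] with s hs s1
    clear h hU
    simp only [not_forall] at hs
    obtain ⟨L, M, j, X, h1, h2, h3, h4, h5, h6, h7, k0, k1, k2⟩ := hs
    set S := {k ∈ range (m + 1) | X k ≠ 0} with hS
    have Sn : S.Nonempty := ⟨k0, mem_filter.2 ⟨k1, k2⟩⟩
    let i0 : S := ⟨S.min' Sn, min'_mem _ _⟩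
    have hm : ∀ k : S, k.1 ≤ m := fun k => Nat.lt_succ_iff.1 (mem_range.1 (mem_filter.1 k.2).1)
    have hX : ∀ k : S, X k ≠ 0 := fun k => (mem_filter.1 k.2).2
    have e0 : 1 ≤ exp (ε * s) := one_le_exp (by positivity)
    have h4' : ∀ k, k ≠ 0 → |(X k : ℝ)| ≤ 3 ^ s := fun k hk =>
      (le_mul_of_one_le_right (abs_nonneg _) e0).trans (h4 k hk)
    have h3' : |(X 0 : ℝ)| ≤ 2 ^ L := by exact_mod_cast h3
    have ha : ∀ k : S, |(X k : ℝ)| * 2 ^ ((k.1 - 1) * s) ≤
        2 ^ L * if k.1 ≠ 0 then 3 ^ s else 1 := fun k => by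
      split_ifs with hk
      · rw [mul_comm]
        refine mul_le_mul (pow_le_pow_right₀ one_le_two (le_trans ?_ h1)) (h4' _ hk)
          (abs_nonneg _) (by positivity)
        exact Nat.mul_le_mul_right _ ((Nat.sub_le _ _).trans (hm k))
      · rw [not_not.1 hk]
        simpa using h3'
    have e3 : (3 : ℝ) ≤ exp 2 := by linarith [add_one_le_exp (2 : ℝ)]
    refine ⟨⟨S, mem_powerset.2 (filter_subset _ _)⟩, coreg_cdata _ _ _ _ _ _
      (fun k : S => X k * 2 ^ ((k.1 - 1) * s) * 3 ^ ((m - k) * s))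
      (fun ℓ => if ℓ = p2 then (1 : Matrix S S ℤ).updateRow i0 (fun _ => 1) else 1)
      (fun ℓ _ => ?_) (fun ℓ _ i k => ?_) (fun i => ?_) ?_ fun c hc hs => ?_⟩
    · split_ifs
      · have := Matrix.det_updateRow_sum (1 : Matrix S S ℤ) i0 fun _ => 1
        rw [show (∑ k : S, (1 : ℤ) • (1 : Matrix S S ℤ) k) = fun _ => 1 by
          funext i; simp [Matrix.one_apply]] at this
        simp [this]
      · simp
    · rw [zero_mul, exp_zero]
      split_ifs
      · rw [Matrix.updateRow_apply, Matrix.one_apply]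
        split_ifs <;> simp
      · rw [Matrix.one_apply]
        split_ifs <;> simp
    · push_cast
      rw [abs_mul, abs_mul, abs_of_pos (by positivity : (0 : ℝ) < 2 ^ ((i.1 - 1) * s)),
        abs_of_pos (by positivity : (0 : ℝ) < 3 ^ ((m - i) * s))]
      calc _ ≤ (3 : ℝ) ^ (2 * m * s) * 3 ^ s * 3 ^ (m * s) := by
            refine mul_le_mul ((ha i).trans (mul_le_mul ?_ ?_ (by positivity) (by positivity)))
              (pow_le_pow_right₀ (by norm_num) (Nat.mul_le_mul_right _ (Nat.sub_le _ _)))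
              (by positivity) (by positivity)
            · exact (pow_le_pow_left₀ zero_le_two (by norm_num) _).trans
                (pow_le_pow_right₀ (by norm_num) h2)
            · split_ifs
              exacts [le_rfl, one_le_pow₀ (by norm_num)]
        _ = 3 ^ ((3 * m + 1) * s) := by ring
        _ ≤ exp 2 ^ ((3 * m + 1) * s) := pow_le_pow_left₀ (by norm_num) e3 _
        _ = _ := by rw [← exp_nat_mul]; push_cast; ring_nf
    · rw [Finset.prod_pair hne, ← prod_mul_distrib, ← prod_mul_distrib]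
      calc _ ≤ ∏ k : S, ((if k = i0 then (2 : ℝ) ^ L / 2 ^ M else 1) *
            if k.1 ≠ 0 then 3 ^ s else 1) := by
            refine prod_le_prod (fun k _ => mul_nonneg (abs_nonneg _)
              (mul_nonneg ((pad _).nonneg _) ((pad _).nonneg _))) fun k _ => ?_
            have a3 := pad_le_of_dvd p3 (X k * 2 ^ ((k.1 - 1) * s) * 3 ^ ((m - k) * s))
              ((m - k) * s) (Dvd.intro_left _ rfl)
            have a2 := pad_le_of_dvd p2 (X k * 2 ^ ((k.1 - 1) * s) * 3 ^ ((m - k) * s))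
              ((k.1 - 1) * s) ((Dvd.intro_left _ rfl).mul_right _)
            have ab : |((X k * 2 ^ ((k.1 - 1) * s) * 3 ^ ((m - k) * s) : ℤ) : ℝ)| =
                |(X k : ℝ)| * 2 ^ ((k.1 - 1) * s) * 3 ^ ((m - k) * s) := by
              push_cast
              rw [abs_mul, abs_mul, abs_of_pos (by positivity : (0 : ℝ) < 2 ^ ((k.1 - 1) * s)),
                abs_of_pos (by positivity : (0 : ℝ) < 3 ^ ((m - k) * s))]
            simp only [if_neg hne.symm, if_true, Matrix.updateRow_apply, Matrix.one_apply, ite_mul,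
              one_mul, zero_mul, sum_ite_eq, mem_univ, ab]
            by_cases hk : k = i0
            · have a1 := pad_le_of_dvd p2 (∑ k : S, X k * 2 ^ ((k.1 - 1) * s) * 3 ^ ((m - k) * s))
                M (by
                  rw [sum_coe_sort S fun k => X k * 2 ^ ((k - 1) * s) * 3 ^ ((m - k) * s), hS,
                    sum_filter_of_ne (p := fun k => X k ≠ 0) fun k _ hk h0 => hk (by simp [h0])]
                  exact h7)
              simp only [if_pos hk]
              calc _ ≤ |(X k : ℝ)| * 2 ^ ((k.1 - 1) * s) * 3 ^ ((m - k) * s) *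
                    (((2 : ℝ) ^ M)⁻¹ * ((3 : ℝ) ^ ((m - k) * s))⁻¹) := by
                    gcongr
                    · exact_mod_cast a1
                    · exact_mod_cast a3
                _ = |(X k : ℝ)| * 2 ^ ((k.1 - 1) * s) / 2 ^ M := by field_simp
                _ ≤ (2 ^ L * if k.1 ≠ 0 then 3 ^ s else 1) / 2 ^ M :=
                  div_le_div_of_nonneg_right (ha k) (by positivity)
                _ = _ := by ring
            · have k0 : k.1 ≠ 0 := fun h0 => hk (Subtype.ext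
                (le_antisymm (h0 ▸ Nat.zero_le _) (min'_le _ _ k.2)))
              simp only [if_neg hk, if_pos k0, sum_ite_eq, mem_univ, if_true]
              calc _ ≤ |(X k : ℝ)| * 2 ^ ((k.1 - 1) * s) * 3 ^ ((m - k) * s) *
                    (((2 : ℝ) ^ ((k.1 - 1) * s))⁻¹ * ((3 : ℝ) ^ ((m - k) * s))⁻¹) := by
                    gcongr
                    · exact_mod_cast a2
                    · exact_mod_cast a3
                _ = |(X k : ℝ)| := by field_simp
                _ ≤ _ := h4' _ k0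
        _ = 2 ^ L / 2 ^ M * (3 ^ s) ^ #{k ∈ range (m + 1) | k ≠ 0 ∧ X k ≠ 0} := by
            rw [prod_mul_distrib, prod_ite_eq', if_pos (mem_univ _),
              prod_coe_sort S fun k => if k ≠ 0 then (3 : ℝ) ^ s else 1, ← prod_filter, prod_const,
              hS, filter_filter]
            simp only [and_comm]
        _ ≤ 2 ^ L / 2 ^ M * (3 ^ s) ^ j := by gcongr; exact one_le_pow₀ (by norm_num)
        _ ≤ (3 ^ s)⁻¹ := by
            have : (3 : ℝ) ^ (s * (j + 1)) * 2 ^ L ≤ 2 ^ M := by exact_mod_cast h6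
            rw [div_mul_eq_mul_div, div_le_iff₀ (by positivity), inv_mul_eq_div,
              le_div_iff₀ (by positivity)]
            refine le_trans (le_of_eq ?_) this
            ring
        _ ≤ _ := by
            rw [one_mul, exp_neg, ← exp_one_pow]
            gcongr
            linarith [exp_one_lt_d9]
    · by_contra hcon
      simp only [not_exists, not_lt] at hcon
      obtain ⟨k, hk, hmax⟩ := exists_max_image {k : S | c k ≠ 0} (fun k => k.1) (by
        obtain ⟨k, hk⟩ := Function.ne_iff.1 hc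
        exact ⟨k, mem_filter.2 ⟨mem_univ _, hk⟩⟩)
      have ck : c k ≠ 0 := (mem_filter.1 hk).2
      have lt : ∀ i : S, i ≠ k → c i ≠ 0 → i.1 < k.1 := fun i hi h0 =>
        lt_of_le_of_ne (hmax i (mem_filter.2 ⟨mem_univ _, h0⟩)) fun e => hi (Subtype.ext e)
      rw [← add_sum_erase _ _ (mem_univ k), add_eq_zero_iff_eq_neg] at hs
      rcases eq_or_ne k.1 0 with h0 | h0
      · rw [sum_eq_zero fun i hi => by
          rw [show c i = 0 by
            by_contra hci
            have := lt i (ne_of_mem_erase hi) hci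
            omega, zero_mul]] at hs
        simp [ck, hX k] at hs
      have d1 : (3 : ℤ) ^ ((m - k) * s) * 3 ^ s ∣
          3 ^ ((m - k) * s) * (c k * X k * 2 ^ ((k.1 - 1) * s)) := by
        rw [show (3 : ℤ) ^ ((m - k) * s) * (c k * X k * 2 ^ ((k.1 - 1) * s)) =
          c k * (X k * 2 ^ ((k.1 - 1) * s) * 3 ^ ((m - k) * s)) by ring, hs, dvd_neg]
        refine dvd_sum fun i hi => ?_
        rcases eq_or_ne (c i) 0 with hci | hci
        · simp [hci]
        · have := lt i (ne_of_mem_erase hi) hci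
          have := hm k
          rw [← pow_add, ← add_one_mul]
          exact ((pow_dvd_pow _ (Nat.mul_le_mul_right _ (by omega))).mul_left _).mul_left _
      have d2 : (3 : ℤ) ^ s ∣ c k * X k :=
        (IsCoprime.pow (by norm_num : IsCoprime (3 : ℤ) 2)).dvd_of_dvd_mul_right
          (Int.dvd_of_mul_dvd_mul_left (by positivity) d1)
      have l3 : |c k * X k| < 3 ^ s := by
        have : |((c k * X k : ℤ) : ℝ)| < 3 ^ s := by
          push_cast
          rw [abs_mul, mul_comm]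
          refine lt_of_lt_of_le (mul_lt_mul_of_pos_left ((hcon k).trans_lt (exp_lt_exp.2 ?_))
            (abs_pos.2 (Int.cast_ne_zero.2 (hX k)))) (h4 _ h0)
          have : (0 : ℝ) < s := Nat.cast_pos.2 s1
          nlinarith
        exact_mod_cast this
      exact mul_ne_zero ck (hX k) (Int.eq_zero_of_abs_lt_dvd d2 l3)
  obtain ⟨S, hS⟩ := Ultrafilter.eventually_exists_iff.1 hS
  refine core _ {p2, p3} (6 * m + 2) 1 (ε / 2) (by positivity) one_pos (by positivity) U hU.1
    fun σ hσ => hS.mono fun s ⟨x, A, h1, h2, h3⟩ => ⟨x, A, h1, fun ℓ hℓ i k =>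
      (h2 ℓ hℓ i k).trans (exp_le_exp.2 ?_), h3⟩
  rw [zero_mul]
  positivity

end Pool.Agent.Work.MP_baf0bc_nt.Ne
end

section
/-! Sums of ternary digits over few blocks are injective, so their entropy is full. -/

set_option autoImplicit false

open Finset Real Filter

namespace Pool.Agent.Work.MP_baf0bc_nt.Ne

def C (d : ℕ → ℤ) (s : ℕ) : ℤ := ∑ r ∈ range s, d r * 2 ^ r * 3 ^ (s - 1 - r)

theorem C_succ (d : ℕ → ℤ) (s : ℕ) : C d (s + 1) = 3 * C d s + d s * 2 ^ s := by
  rw [C, sum_range_succ, C, mul_sum]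
  congr 1
  · refine sum_congr rfl fun r hr => ?_
    rw [show s + 1 - 1 - r = s - 1 - r + 1 by have := mem_range.1 hr; omega, pow_succ]
    ring
  · simp

theorem C_zero {d : ℕ → ℤ} (hd : ∀ r, |d r| ≤ 2) (s : ℕ) : C d s = 0 → ∀ r < s, d r = 0 := by
  induction s with
  | zero => intro _ r hr; omega
  | succ s ih =>
    intro h r hr
    rw [C_succ] at h
    have h1 : (3 : ℤ) ∣ d s := (IsCoprime.pow_right (n := s)
      (by norm_num : IsCoprime (3 : ℤ) 2)).dvd_of_dvd_mul_right ⟨-C d s, by linarith⟩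
    have h2 : d s = 0 := Int.eq_zero_of_abs_lt_dvd h1 (by linarith [hd s])
    rcases Nat.lt_succ_iff_lt_or_eq.1 hr with k | rfl
    · rw [h2] at h
      exact ih (by linarith) r k
    · exact h2

theorem C_le {d : ℕ → ℤ} (hd : ∀ r, |d r| ≤ 2) {a : ℕ} (h0 : ∀ r < a, d r = 0) (n : ℕ) :
    |C d (a + n)| + 2 * 2 ^ (a + n) ≤ 2 * 2 ^ a * 3 ^ n := by
  induction n with
  | zero =>
    rw [C, sum_eq_zero fun r hr => by rw [h0 r (by simpa using hr), zero_mul, zero_mul]]
    simp
  | succ n ih =>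
    rw [← add_assoc, C_succ, pow_succ, pow_succ]
    have h1 := abs_add_le (3 * C d (a + n)) (d (a + n) * 2 ^ (a + n))
    rw [abs_mul, abs_mul, abs_of_pos (by positivity : (0 : ℤ) < 2 ^ (a + n))] at h1
    have h2 := mul_le_mul_of_nonneg_right (hd (a + n)) (by positivity : (0 : ℤ) ≤ 2 ^ (a + n))
    norm_num at h1
    linarith

/-- The weight of the letter at position `i`. -/
def g (M i : ℕ) : ZMod (2 ^ M) := 2 ^ i * 3 ^ (M - 1 - i)

theorem inj (m : ℕ) {ε : ℝ} (hε : 0 < ε) : ∀ᶠ s : ℕ in atTop, ∀ (L M j a : ℕ) (T : Finset ℕ),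
    m * s ≤ L → L ≤ 2 * m * s → a ≤ s → 2 * exp (ε * s) ≤ (3 / 2) ^ a → T ⊆ range m → #T ≤ j →
    3 ^ (s * (j + 1)) * 2 ^ L ≤ 2 ^ M → L * log 2 + #T * ((s : ℝ) - a) * log 3 ≤
      H (dig (2 ^ L) (3 ^ M) * ∏ k ∈ T, ∏ r ∈ Ico a s, dig 3 (g M (k * s + r))) := by
  filter_upwards [dio m hε] with s hs L M j a T h1 h2 h3 h4 h5 h6 h7
  have LM : L ≤ M := (Nat.pow_le_pow_iff_right one_lt_two).1
    ((Nat.le_mul_of_pos_left _ (by positivity)).trans h7)
  rw [← prod_product' T (Ico a s) fun k r => dig 3 (g M (k * s + r))]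
  set I := T ×ˢ Ico a s with hI
  have pr := (pr_dig (q := 2 ^ L) (by positivity) ((3 : ZMod (2 ^ M)) ^ M)).mul
    (pr_prod I (fun i => dig 3 (g M (i.1 * s + i.2))) fun i _ => pr_dig three_pos _)
  refine le_trans (le_of_eq ?_) (H_ge pr (K := ((2 ^ L : ℕ) : ℝ) * ((3 : ℕ) : ℝ) ^ #I) fun x => ?_)
  · push_cast
    rw [log_mul (by positivity) (by positivity), log_pow, log_pow, hI, card_product, Nat.card_Ico]
    push_cast [h3]
    ring
  rw [expand, ← sum_singleton (fun x => AddMonoidAlgebra.coeff _ x) x, mass]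
  refine mul_le_of_le_one_right (by positivity) (Nat.cast_le_one.2 (card_le_one.2
    fun z hz z' hz' => ?_))
  simp only [mem_filter, mem_product, mem_range, Fintype.mem_piFinset, mem_singleton] at hz hz'
  let d : ℕ → ℕ → ℤ := fun k r => if h : (k, r) ∈ I then (z.2 ⟨_, h⟩ : ℤ) - z'.2 ⟨_, h⟩ else 0
  have d2 : ∀ k r, |d k r| ≤ 2 := fun k r => by
    simp only [d]
    split_ifs with h
    · have := hz.1.2 ⟨_, h⟩
      have := hz'.1.2 ⟨_, h⟩
      rw [abs_le]
      omega
    · simp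
  have d0 : ∀ k r, (k, r) ∉ I → d k r = 0 := fun k r h => dif_neg h
  have key := hs L M j (fun k => Nat.rec ((z.1 : ℤ) - z'.1) (fun k _ => C (d k) s) k) h1 h2
    ?_ ?_ ?_ h7 ?_
  · have k0 : (z.1 : ℤ) - z'.1 = 0 := key 0 (by simp)
    refine Prod.ext (by omega) (funext fun i => ?_)
    have hi := mem_product.1 i.2
    have k1 : C (d i.1.1) s = 0 := key (i.1.1 + 1) (by simpa using h5 hi.1)
    have k2 := C_zero (d2 _) s k1 i.1.2 (mem_Ico.1 hi.2).2
    simp only [d, Prod.mk.eta, dif_pos i.2, Subtype.coe_eta] at k2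
    omega
  · have a1 : (z.1 : ℤ) < 2 ^ L := by exact_mod_cast hz.1.1
    have a2 : (z'.1 : ℤ) < 2 ^ L := by exact_mod_cast hz'.1.1
    show |(z.1 : ℤ) - z'.1| ≤ _
    rw [abs_le]
    omega
  · intro k hk
    obtain ⟨k, rfl⟩ := Nat.exists_eq_succ_of_ne_zero hk
    obtain ⟨n, rfl⟩ := Nat.exists_eq_add_of_le h3
    have a1 := C_le (d2 k) (a := a) (fun r hr => d0 k r fun h => by
      have := (mem_Ico.1 (mem_product.1 h).2).1
      omega) n
    have a2 : |C (d k) (a + n)| ≤ 2 * 2 ^ a * 3 ^ n := by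
      linarith [(by positivity : (0 : ℤ) < 2 ^ (a + n))]
    have a3 : |((C (d k) (a + n) : ℤ) : ℝ)| ≤ 2 * 2 ^ a * 3 ^ n := by exact_mod_cast a2
    calc _ ≤ 2 * 2 ^ a * 3 ^ n * exp (ε * (a + n : ℕ)) :=
          mul_le_mul_of_nonneg_right a3 (exp_pos _).le
      _ = 2 ^ a * 3 ^ n * (2 * exp (ε * (a + n : ℕ))) := by ring
      _ ≤ 2 ^ a * 3 ^ n * (3 / 2) ^ a := by gcongr
      _ = _ := by rw [div_pow, pow_add]; field_simp
  · refine le_trans (card_le_card (t := T.image (· + 1)) fun k hk => ?_) (card_image_le.trans h6)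
    obtain ⟨-, k1, k2⟩ := mem_filter.1 hk
    obtain ⟨k, rfl⟩ := Nat.exists_eq_succ_of_ne_zero k1
    refine mem_image.2 ⟨k, by_contra fun h => k2 ?_, rfl⟩
    exact sum_eq_zero fun r _ => by
      rw [d0 k r fun h' => h (mem_product.1 h').1, zero_mul, zero_mul]
  · refine (IsCoprime.pow (n := M - m * s)
      (by norm_num : IsCoprime (2 : ℤ) 3)).dvd_of_dvd_mul_right ?_
    have := (ZMod.intCast_zmod_eq_zero_iff_dvd (((z.1 : ℤ) - z'.1) * 3 ^ M + ∑ i : I,
      ((z.2 i : ℤ) - z'.2 i) * (2 ^ (i.1.1 * s + i.1.2) * 3 ^ (M - 1 - (i.1.1 * s + i.1.2))))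
      (2 ^ M)).1 (by
        have := hz.2.trans hz'.2.symm
        simp only [nsmul_eq_mul, g] at this
        push_cast
        simp only [sub_mul, sum_sub_distrib]
        linear_combination this)
    push_cast at this
    refine this.trans (dvd_of_eq (Eq.symm ?_))
    rw [sum_range_succ', add_mul, add_comm]
    congr 1
    · simp only [Nat.rec_zero, zero_tsub, zero_mul, pow_zero, mul_one, tsub_zero, mul_assoc,
        ← pow_add]
      rw [Nat.add_sub_cancel' (h1.trans LM)]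
    · calc _ = ∑ i ∈ range m ×ˢ range s,
            d i.1 i.2 * (2 ^ (i.1 * s + i.2) * 3 ^ (M - 1 - (i.1 * s + i.2))) := by
            rw [sum_product, sum_mul]
            refine sum_congr rfl fun k hk => ?_
            simp only [C, sum_mul, add_tsub_cancel_right]
            refine sum_congr rfl fun r hr => ?_
            obtain ⟨b, rfl⟩ := Nat.exists_eq_add_of_lt (mem_range.1 hk)
            have := mem_range.1 hr
            rw [show k + b + 1 - (k + 1) = b by omega,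
              show M - 1 - (k * s + r) = s - 1 - r + b * s + (M - (k + b + 1) * s) by
                rw [add_mul, add_mul] at h1 ⊢; omega]
            ring
        _ = ∑ i ∈ I, d i.1 i.2 * (2 ^ (i.1 * s + i.2) * 3 ^ (M - 1 - (i.1 * s + i.2))) :=
            (sum_subset (product_subset_product h5 fun r hr => mem_range.2 (mem_Ico.1 hr).2)
              fun i _ h => by rw [d0 _ _ h, zero_mul]).symm
        _ = _ := by
            rw [← sum_coe_sort]
            exact sum_congr rfl fun i _ => by simp only [d, Prod.mk.eta, dif_pos i.2]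

end Pool.Agent.Work.MP_baf0bc_nt.Ne
end

section
/-! The sum over the first `L` letters has almost full entropy modulo `2 ^ (L + t)`. -/

set_option autoImplicit false

open Finset Real Filter

namespace Pool.Agent.Work.MP_baf0bc_nt.Ne

theorem blocksL {G : Type} [AddCommGroup G] [Fintype G] [DecidableEq G] (Y Z : ℕ → A G)
    (hY : ∀ k, Pr (Y k)) (hZ : ∀ k, Pr (Z k)) {l : ℝ} (l0 : 0 ≤ l) (l1 : l ≤ 1) (a b : ℝ) (m : ℕ) :
    (∀ k < m, ∀ p, Pr p → l * H (p * Z k) + (1 - l) * H p - 4 ≤ H (p * Y k)) →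
    ∀ (p : A G) (y : ℝ), Pr p →
      (∀ T ⊆ range m, a - b * (T.card - y) ^ 2 ≤ H (p * ∏ k ∈ T, Z k)) →
      a - b * ((l * m - y) ^ 2 + l * (1 - l) * m) - 4 * m ≤ H (p * ∏ k ∈ range m, Y k) := by
  induction m with
  | zero => intro _ p y _ k; simpa using k ∅ (Subset.refl _)
  | succ m ih =>
    intro h p y hp k
    have ih := ih fun k hk => h k (Nat.lt_succ_of_lt hk)
    have h1 := h m (Nat.lt_succ_self m) _ (hp.mul (pr_prod (range m) Y fun k _ => hY k))
    have h2 := ih p y hp fun T hT => k T (hT.trans (range_subset_range.2 (Nat.le_succ m)))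
    have h3 := ih (p * Z m) (y - 1) (hp.mul (hZ m)) fun T hT => by
      have hm : m ∉ T := fun hm => notMem_range_self (hT hm)
      have := k (insert m T) (by rw [range_add_one]; exact insert_subset_insert m hT)
      rw [prod_insert hm, card_insert_of_notMem hm, ← mul_assoc] at this
      push_cast at this
      convert this using 4
      ring
    rw [prod_range_succ, ← mul_assoc]
    rw [mul_right_comm] at h1
    push_cast
    linarith [mul_le_mul_of_nonneg_left h3 l0, mul_le_mul_of_nonneg_left h2 (sub_nonneg.2 l1)]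

/-- The block inequality with the constant `l`. -/
def Blk (l : ℝ) : Prop := ∀ (M n : ℕ) (h : ZMod (2 ^ M)),
  (∀ x y : ℕ, x < 2 * 3 ^ n → y < 2 * 3 ^ n → x • h = y • h → x = y) → ∀ p, Pr p →
    l * H (p * ∏ j ∈ range n, dig 3 ((2 ^ j * 3 ^ (n - 1 - j) : ℕ) • h)) + (1 - l) * H p - 4 ≤
      H (p * ∏ j ∈ range n, dig 2 ((2 ^ j * 3 ^ (n - 1 - j) : ℕ) • h))

theorem Blk.g {l : ℝ} (hl : Blk l) {M k s a : ℕ} (h1 : a ≤ s) (h2 : 3 ≤ s)
    (h3 : k * s + 3 * s ≤ M) (p : A (ZMod (2 ^ M))) (hp : Pr p) :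
    l * H (p * ∏ r ∈ Ico a s, dig 3 (g M (k * s + r))) + (1 - l) * H p - 4 ≤
      H (p * ∏ r ∈ Ico a s, dig 2 (g M (k * s + r))) := by
  have e : ∀ q, ∏ r ∈ Ico a s, dig q (Ne.g M (k * s + r)) = ∏ j ∈ range (s - a),
      dig q ((2 ^ j * 3 ^ (s - a - 1 - j) : ℕ) •
        (2 ^ (k * s + a) * 3 ^ (M - (k * s + s)) : ZMod (2 ^ M))) := fun q => by
    rw [prod_Ico_eq_prod_range]
    refine prod_congr rfl fun j hj => ?_
    have := mem_range.1 hj
    rw [Ne.g, show M - 1 - (k * s + (a + j)) = s - a - 1 - j + (M - (k * s + s)) by omega,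
      nsmul_eq_mul]
    push_cast
    ring_nf
  rw [e, e]
  refine hl M _ _ (fun x y hx hy hxy => ?_) p hp
  have d1 := (ZMod.intCast_zmod_eq_zero_iff_dvd
    (((x : ℤ) - y) * 2 ^ (k * s + a) * 3 ^ (M - (k * s + s))) (2 ^ M)).1 (by
      simp only [nsmul_eq_mul] at hxy
      push_cast
      linear_combination hxy)
  push_cast at d1
  have d2 := (IsCoprime.pow (by norm_num : IsCoprime (2 : ℤ) 3)).dvd_of_dvd_mul_right d1
  have d3 : (2 : ℤ) ^ (2 * s) ∣ x - y := Int.dvd_of_mul_dvd_mul_right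
    (a := 2 ^ (k * s + a)) (by positivity)
    (Dvd.dvd.trans (by rw [← pow_add]; exact pow_dvd_pow _ (by omega)) d2)
  have b : 2 * 3 ^ (s - a) ≤ 2 ^ (2 * s) := by
    obtain ⟨n, rfl⟩ := Nat.exists_eq_add_of_le h2
    calc 2 * 3 ^ (3 + n - a) ≤ 2 * 3 ^ (3 + n) := by gcongr; exacts [by norm_num, Nat.sub_le _ _]
      _ = 54 * 3 ^ n := by ring
      _ ≤ 64 * 4 ^ n := by gcongr <;> norm_num
      _ = _ := by rw [pow_mul]; ring
  have a1 : (x : ℤ) < 2 ^ (2 * s) := by exact_mod_cast hx.trans_le b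
  have a2 : (y : ℤ) < 2 ^ (2 * s) := by exact_mod_cast hy.trans_le b
  have := Int.eq_zero_of_abs_lt_dvd d3 (by rw [abs_lt]; omega)
  omega

theorem defic {l c η γ : ℝ} (hl : Blk l) (l0 : 0 ≤ l) (l1 : l ≤ 1) (hc : c < l * logb 2 3)
    (hη : 0 < η) (hγ : 0 < γ) :
    ∀ᶠ L : ℕ in atTop, ∀ t : ℕ, η * L ≤ t → t ≤ c * L → (L + t) * log 2 - γ * L ≤
      H (dig (2 ^ L) (3 ^ (L + t)) * ∏ i ∈ range L, dig 2 (g (L + t) i)) := by
  have l2 : 0 < log 2 := log_pos one_lt_two
  have l3 : 0 < log 3 := log_pos (by norm_num)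
  have l4 : log 3 ≤ 2 := by linarith [log_le_sub_one_of_pos (x := 3) (by norm_num)]
  obtain ⟨κ, k0, hκ⟩ : ∃ κ : ℝ, 0 < κ ∧ c * log 2 = (l - 2 * κ) * log 3 := by
    refine ⟨(l - c * log 2 / log 3) / 2, ?_, by field_simp; ring⟩
    rw [logb, ← mul_div_assoc, lt_div_iff₀ l2, ← div_lt_iff₀ l3] at hc
    linarith
  obtain ⟨m, hm⟩ := exists_nat_gt (max (2 / η) ((7 + 1 / κ) / γ))
  have m1 : 2 < m * η := (div_lt_iff₀ hη).1 ((le_max_left _ _).trans_lt hm)
  have m2 : 7 + 1 / κ < m * γ := (div_lt_iff₀ hγ).1 ((le_max_right _ _).trans_lt hm)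
  have m0 : 0 < m := Nat.pos_of_ne_zero fun h => by rw [h] at m1; norm_num at m1
  have m3 : (0 : ℝ) < m := Nat.cast_pos.2 m0
  filter_upwards [(Nat.tendsto_div_const_atTop m0.ne').eventually
    ((inj m (ε := 1 / (6 * m)) (by positivity)).and ((eventually_ge_atTop (8 * m)).and
      (tendsto_natCast_atTop_atTop.eventually_ge_atTop (1 / κ))))] with L ⟨hs, s1, s2⟩ t t1 t2
  have a1 := Nat.mul_div_le L m
  have a2 := Nat.lt_mul_div_succ L m0
  generalize L / m = s at *
  have b1 := Nat.mul_div_le s m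
  have b2 := Nat.lt_mul_div_succ s m0
  have b3 := Nat.div_le_self s m
  generalize s / m = a at *
  have s0 : 0 < s := by omega
  have a1' : (m : ℝ) * s ≤ L := by exact_mod_cast a1
  have a2' : (L : ℝ) ≤ m * (s + 1) := by exact_mod_cast a2.le
  have b1' : (m : ℝ) * a ≤ s := by exact_mod_cast b1
  have b2' : (s : ℝ) ≤ m * (a + 1) := by exact_mod_cast b2.le
  have b3' : (a : ℝ) ≤ s := by exact_mod_cast b3
  have s1' : 8 * (m : ℝ) ≤ s := by exact_mod_cast s1
  have s0' : (0 : ℝ) < s := Nat.cast_pos.2 s0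
  have t3 : 2 * s ≤ t := by
    have : 2 * (s : ℝ) ≤ t := by
      linarith only [t1, mul_le_mul_of_nonneg_right m1.le s0'.le, mul_le_mul_of_nonneg_left a1' hη.le]
    exact_mod_cast this
  obtain ⟨j, j1, j2⟩ : ∃ j, 3 ^ (s * (j + 1)) ≤ 2 ^ t ∧ 2 ^ t < 3 ^ (s * (j + 2)) := by
    have h1 : 1 < 3 ^ s := Nat.one_lt_pow s0.ne' (by norm_num)
    have h2 : 3 ^ s ≤ 2 ^ t := (Nat.pow_le_pow_left (by norm_num : 3 ≤ 2 ^ 2) s).trans
      (by rw [← pow_mul]; exact Nat.pow_le_pow_right two_pos t3)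
    obtain ⟨j, hj⟩ := Nat.exists_eq_succ_of_ne_zero (Nat.log_pos h1 h2).ne'
    have h3 := Nat.pow_log_le_self (3 ^ s) (x := 2 ^ t) (by positivity)
    have h4 := Nat.lt_pow_succ_log_self h1 (2 ^ t)
    rw [hj, ← pow_mul] at h3 h4
    exact ⟨j, h3, h4⟩
  have j3 : s * (j + 1) * log 3 ≤ t * log 2 := by
    have : ((3 : ℝ)) ^ (s * (j + 1)) ≤ 2 ^ t := by exact_mod_cast j1
    simpa using log_le_log (by positivity) this
  have j4 : t * log 2 ≤ s * (j + 2) * log 3 := by
    have : (2 : ℝ) ^ t ≤ 3 ^ (s * (j + 2)) := by exact_mod_cast j2.le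
    simpa using log_le_log (by positivity) this
  have j5 : (j : ℝ) ≤ (l - κ) * m := by
    have c0 : 0 ≤ c := by
      refine nonneg_of_mul_nonneg_left ((Nat.cast_nonneg t).trans t2) ?_
      linarith only [a1', mul_pos m3 s0']
    have h1 : t * log 2 ≤ (l - 2 * κ) * (m * (s + 1)) * log 3 := by
      calc _ ≤ c * (m * (s + 1)) * log 2 := by gcongr; exact t2.trans (by gcongr)
        _ = _ := by rw [mul_right_comm, hκ]; ring
    have h2 := le_of_mul_le_mul_right (j3.trans h1) l3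
    have h3 : 1 ≤ s * κ := (div_le_iff₀ k0).1 s2
    refine le_of_mul_le_mul_left ?_ s0'
    linarith only [h2, mul_le_mul_of_nonneg_left h3 m3.le, mul_pos m3 k0, s0',
      mul_le_mul_of_nonneg_right l1 m3.le]
  have ex : 2 * exp (1 / (6 * m) * s) ≤ (3 / 2) ^ a := by
    have h1 : exp (1 / 3) ≤ 3 / 2 := by
      have := add_one_le_exp (-(1 / 3) : ℝ)
      rw [exp_neg, le_inv_comm₀ (by norm_num) (exp_pos _)] at this
      linarith
    have h2 : 1 / (6 * m) * (s : ℝ) + 1 ≤ a * (1 / 3) := by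
      have : 1 / (6 * m) * (s : ℝ) = s / m / 6 := by field_simp
      have h3 : (s : ℝ) / m ≤ a + 1 := by rwa [div_le_iff₀' m3]
      have h4 : 8 ≤ (s : ℝ) / m := by rwa [le_div_iff₀ m3]
      linarith
    calc _ ≤ exp 1 * exp (1 / (6 * m) * s) := by gcongr; linarith [add_one_le_exp (1 : ℝ)]
      _ ≤ exp (a * (1 / 3)) := by rw [← exp_add, exp_le_exp]; linarith
      _ ≤ _ := by rw [exp_nat_mul]; gcongr
  have pU := pr_dig (q := 2 ^ L) (by positivity) ((3 : ZMod (2 ^ (L + t))) ^ (L + t))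
  have p2 : ∀ B : Finset ℕ, ∀ f : ℕ → ℕ, Pr (∏ r ∈ B, dig 2 (g (L + t) (f r))) := fun B f =>
    pr_prod _ _ fun r _ => pr_dig two_pos _
  have p3 : ∀ k, Pr (∏ r ∈ Ico a s, dig 3 (g (L + t) (k * s + r))) := fun k =>
    pr_prod _ _ fun r _ => pr_dig three_pos _
  obtain ⟨w, hw⟩ : ∃ w : ℝ, w = (s - a) * log 3 := ⟨_, rfl⟩
  have w0 : 0 ≤ w := by rw [hw]; exact mul_nonneg (by linarith) l3.le
  have hI : ∀ T ⊆ range m, #T ≤ j → L * log 2 + #T * w ≤ H (dig (2 ^ L) (3 ^ (L + t)) *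
      ∏ k ∈ T, ∏ r ∈ Ico a s, dig 3 (g (L + t) (k * s + r))) := fun T h1 h2 => by
    rw [hw, ← mul_assoc]
    refine hs L (L + t) j a T a1 (by nlinarith only [a2, s0]) b3 ex h1 h2 ?_
    rw [pow_add, mul_comm]
    exact Nat.mul_le_mul_left _ j1
  have km : 0 < κ * m := mul_pos k0 m3
  have h1 := blocksL (fun k => ∏ r ∈ Ico a s, dig 2 (g (L + t) (k * s + r))) _ (fun k => p2 _ _) p3
    l0 l1 (L * log 2 + j * w) (w / (κ * m)) m
    (fun k hk => hl.g b3 (by omega) (by nlinarith only [hk, a1, t3])) _ (l * m) pU fun T hT => by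
      rcases le_total #T j with h | h
      · refine le_trans ?_ (hI T hT h)
        have h' : (#T : ℝ) ≤ j := Nat.cast_le.2 h
        have : (j : ℝ) - #T ≤ (#T - l * m) ^ 2 / (κ * m) := by
          rw [le_div_iff₀ km]
          nlinarith only [h', j5, km]
        have := mul_le_mul_of_nonneg_left this w0
        rw [div_mul_eq_mul_div, mul_div_assoc]
        linarith
      · obtain ⟨T', h1, h2⟩ := exists_subset_card_eq h
        have h3 := hI T' (h1.trans hT) h2.le
        rw [← prod_sdiff h1, mul_comm (∏ _ ∈ T \ T', _), ← mul_assoc]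
        have h4 := H_mono (pU.mul (pr_prod T' _ fun k _ => p3 k)) (pr_prod (T \ T') _ fun k _ => p3 k)
        rw [h2] at h3
        have : 0 ≤ w / (κ * m) * (#T - l * m) ^ 2 := by positivity
        linarith
  have hsub : (range m ×ˢ Ico a s).image (fun i => i.1 * s + i.2) ⊆ range L := fun i hi => by
    obtain ⟨⟨k, r⟩, h, rfl⟩ := mem_image.1 hi
    simp only [mem_product, mem_range, mem_Ico] at h ⊢
    nlinarith only [h.1, h.2.2, a1]
  rw [← prod_sdiff hsub, mul_comm (∏ _ ∈ range L \ _, _), ← mul_assoc, prod_image, prod_product]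
  · refine le_trans ?_ (H_mono (pU.mul (pr_prod _ _ fun k _ => p2 _ _)) (p2 _ id))
    refine le_trans ?_ h1
    have e1 : w / (κ * m) * ((l * m - l * m) ^ 2 + l * (1 - l) * m) =
        l * (1 - l) * (w * (1 / κ)) := by
      field_simp
      ring
    have e0 : l * (1 - l) * (w * (1 / κ)) ≤ 1 / 4 * (w * (1 / κ)) :=
      mul_le_mul_of_nonneg_right (by nlinarith only [sq_nonneg (l - 1 / 2)]) (by positivity)
    have a0 := Nat.cast_nonneg (α := ℝ) a
    have f2 : s * log 3 ≤ s * 2 := mul_le_mul_of_nonneg_left l4 s0'.le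
    have w1 : w ≤ 2 * s := by linarith only [hw, f2, mul_nonneg a0 l3.le]
    have e2 : w * (1 / κ) ≤ 2 * s * (1 / κ) := by gcongr
    have e3 : (j : ℝ) * a ≤ s :=
      (mul_le_mul_of_nonneg_right (by
        linarith only [j5, km, mul_le_mul_of_nonneg_right l1 m3.le]) a0).trans b1'
    have e4 : (7 + 1 / κ) * s ≤ γ * L := by
      linarith only [mul_le_mul_of_nonneg_right m2.le s0'.le, mul_le_mul_of_nonneg_left a1' hγ.le]
    have e5 : 0 < s * (1 / κ) := by positivity
    have f1 := mul_le_mul_of_nonneg_right e3 l3.le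
    have f3 : j * w = j * ((s - a) * log 3) := by rw [hw]
    rw [e1]
    linarith only [f1, f2, f3, e0, e2, e4, e5, j4, s1', m3]
  · rintro ⟨k, r⟩ h ⟨k', r'⟩ h' e
    simp only [coe_product, Set.mem_prod, mem_coe, mem_Ico] at h h' e
    have h2 := congrArg (· % s) e
    simp only [Nat.mul_add_mod_self_right, Nat.mod_eq_of_lt h.2.2, Nat.mod_eq_of_lt h'.2.2] at h2
    subst h2
    rw [Nat.eq_of_mul_eq_mul_right s0 (Nat.add_right_cancel e)]

/-- The map `x ↦ ⌈3 x / 2⌉`. -/
def T (x : ℕ) : ℕ := (3 * x + 1) / 2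

theorem spec (x n : ℕ) :
    (2 : ℤ) ^ n * T^[n] x = 3 ^ n * x + C (fun i => (T^[i] x % 2 : ℕ)) n := by
  induction n with
  | zero => simp [C]
  | succ n ih =>
    have : 2 * T (T^[n] x) = 3 * T^[n] x + T^[n] x % 2 := by rw [T]; omega
    have h : (2 : ℤ) * T (T^[n] x) = 3 * T^[n] x + (T^[n] x % 2 : ℕ) := by exact_mod_cast this
    rw [C_succ, Function.iterate_succ_apply']
    linear_combination 2 ^ n * h + 3 * ih

theorem seed_inj {L x y : ℕ} (hx : x < y + 2 ^ L) (hy : y < x + 2 ^ L)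
    (h : ∀ i < L, T^[i] x % 2 = T^[i] y % 2) : x = y := by
  have h1 : C (fun i => (T^[i] x % 2 : ℕ)) L = C (fun i => (T^[i] y % 2 : ℕ)) L :=
    sum_congr rfl fun i hi => by simp only [h i (mem_range.1 hi)]
  have h2 : (2 : ℤ) ^ L ∣ x - y := (IsCoprime.pow (n := L)
    (by norm_num : IsCoprime (2 : ℤ) 3)).dvd_of_dvd_mul_left
      ⟨T^[L] x - T^[L] y, by linear_combination spec y L - spec x L - h1⟩
  have a1 : (x : ℤ) < y + 2 ^ L := by exact_mod_cast hx
  have a2 : (y : ℤ) < x + 2 ^ L := by exact_mod_cast hy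
  have := Int.eq_zero_of_abs_lt_dvd h2 (by rw [abs_lt]; omega)
  omega

theorem spec_mod (x M : ℕ) :
    (x : ZMod (2 ^ M)) * 3 ^ M + ∑ i ∈ range M, (T^[i] x % 2 : ℕ) * g M i = 0 := by
  have := congrArg (Int.cast : ℤ → ZMod (2 ^ M)) (spec x M)
  have h : (2 : ZMod (2 ^ M)) ^ M = 0 := by exact_mod_cast ZMod.natCast_self (2 ^ M)
  simp only [C, Int.cast_mul, Int.cast_add, Int.cast_sum, Int.cast_pow, Int.cast_natCast,
    Int.cast_ofNat, h, zero_mul] at this
  simp only [g, ← mul_assoc]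
  linear_combination -this

end Pool.Agent.Work.MP_baf0bc_nt.Ne
end

section
/-! Concentration on the discrete cube. -/

set_option autoImplicit false

open Finset Real

namespace Pool.Agent.Work.MP_baf0bc_nt.Ne

theorem mcd (x : ℝ) (I : Finset ℕ) : ∀ φ : Finset ℕ → ℝ, (∀ i S, |φ (insert i S) - φ S| ≤ 1) →
    ∑ S ∈ I.powerset, exp (x * φ S) ≤
      2 ^ #I * exp (x ^ 2 / 8 * #I + x * ((∑ S ∈ I.powerset, φ S) / 2 ^ #I)) := by
  induction I using Finset.induction_on with
  | empty => intro φ _; simp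
  | insert i I hi ih =>
    intro φ h
    have h1 := ih φ h
    have h2 := ih (fun S => φ (insert i S)) fun j S => by rw [insert_comm]; exact h j _
    rw [sum_powerset_insert hi, sum_powerset_insert hi, card_insert_of_notMem hi]
    have h3 : |(∑ S ∈ I.powerset, φ (insert i S)) / 2 ^ #I - (∑ S ∈ I.powerset, φ S) / 2 ^ #I| ≤ 1 := by
      rw [← sub_div, ← sum_sub_distrib, abs_div, abs_of_pos (by positivity : (0 : ℝ) < 2 ^ #I),
        div_le_one (by positivity)]
      refine (abs_sum_le_sum_abs _ _).trans ((sum_le_card_nsmul _ _ 1 fun S _ => h i S).trans ?_)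
      simp
    rw [add_div, pow_succ 2, ← div_div, ← div_div]
    generalize (∑ S ∈ I.powerset, φ (insert i S)) / 2 ^ #I = b at *
    generalize (∑ S ∈ I.powerset, φ S) / 2 ^ #I = a at *
    have h4 := cosh_le_exp_half_sq (x * (b - a) / 2)
    have h5 : exp ((x * (b - a) / 2) ^ 2 / 2) ≤ exp (x ^ 2 / 8) := exp_le_exp.2 (by
      nlinarith [mul_le_mul_of_nonneg_left ((sq_le_one_iff_abs_le_one _).2 h3) (sq_nonneg x)])
    rw [cosh_eq] at h4
    calc _ ≤ 2 ^ #I * exp (x ^ 2 / 8 * #I + x * (a / 2 + b / 2)) *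
          (exp (x * (b - a) / 2) + exp (-(x * (b - a) / 2))) := by
          refine (add_le_add h1 h2).trans_eq ?_
          rw [mul_add (_ * _), mul_assoc, mul_assoc, ← exp_add, ← exp_add, add_comm]
          congr 3 <;> ring
      _ ≤ 2 ^ #I * exp (x ^ 2 / 8 * #I + x * (a / 2 + b / 2)) * (2 * exp (x ^ 2 / 8)) := by
          gcongr
          linarith
      _ = _ := by
          rw [mul_mul_mul_comm, ← exp_add]
          push_cast
          congr 2
          ring

theorem blow {I : Finset ℕ} {F : Finset (Finset ℕ)} (hF : F ⊆ I.powerset) {δ : ℝ} (hδ : 0 < δ)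
    (h : 2 ^ #I * exp (-(δ ^ 2 / 2) * #I) < #F) :
    (2 : ℝ) ^ #I ≤ 2 * #{S ∈ I.powerset | ∃ A ∈ F, (#(S \ A) + #(A \ S) : ℝ) ≤ δ * #I} := by
  have hne : F.Nonempty := card_pos.1 (Nat.cast_pos.1 (lt_trans (by positivity) h))
  let φ : Finset ℕ → ℝ := fun S => F.inf' hne fun A => (#(S \ A) + #(A \ S) : ℝ)
  have φ0 : ∀ S, 0 ≤ φ S := fun S => le_inf' _ _ fun A _ => by positivity
  have φ1 : ∀ S, ∃ A ∈ F, φ S = #(S \ A) + #(A \ S) := fun S => exists_mem_eq_inf' hne _
  have φ2 : ∀ S, ∀ A ∈ F, φ S ≤ #(S \ A) + #(A \ S) := fun S A hA => inf'_le _ hA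
  have h1 := mcd (-(2 * δ)) I φ fun i S => by
    obtain ⟨A, hA, e⟩ := φ1 S
    obtain ⟨B, hB, e'⟩ := φ1 (insert i S)
    have a1 : #(insert i S \ A) ≤ #(S \ A) + 1 := (card_le_card (t := insert i (S \ A))
      fun j => by simp only [mem_sdiff, mem_insert]; tauto).trans (card_insert_le _ _)
    have a2 : #(A \ insert i S) ≤ #(A \ S) :=
      card_le_card (sdiff_subset_sdiff (Subset.refl _) (subset_insert _ _))
    have a3 : #(S \ B) ≤ #(insert i S \ B) :=
      card_le_card (sdiff_subset_sdiff (subset_insert _ _) (Subset.refl _))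
    have a4 : #(B \ S) ≤ #(B \ insert i S) + 1 := (card_le_card (t := insert i (B \ insert i S))
      fun j => by simp only [mem_sdiff, mem_insert]; tauto).trans (card_insert_le _ _)
    have b1 : (#(insert i S \ A) + #(A \ insert i S) : ℝ) ≤ #(S \ A) + #(A \ S) + 1 := by
      exact_mod_cast (by omega)
    have b2 : (#(S \ B) + #(B \ S) : ℝ) ≤ #(insert i S \ B) + #(B \ insert i S) + 1 := by
      exact_mod_cast (by omega)
    rw [abs_le]
    constructor <;> linarith [φ2 (insert i S) A hA, φ2 S B hB]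
  have h2 : (#F : ℝ) ≤ ∑ S ∈ I.powerset, exp (-(2 * δ) * φ S) := by
    refine le_trans ?_ (sum_le_sum_of_subset_of_nonneg hF fun _ _ _ => (exp_pos _).le)
    rw [← mul_one (#F : ℝ), ← nsmul_eq_mul]
    refine card_nsmul_le_sum _ _ _ fun A hA => ?_
    rw [le_antisymm (by simpa using φ2 A A hA) (φ0 A), mul_zero, exp_zero]
  have h3 := exp_lt_exp.1 (lt_of_mul_lt_mul_left (h.trans_le (h2.trans h1)) (by positivity))
  have h4 : (∑ S ∈ I.powerset, φ S) / 2 ^ #I < δ * #I / 2 :=
    lt_of_mul_lt_mul_left (a := 2 * δ) (by linarith) (by positivity)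
  rw [div_lt_iff₀ (by positivity)] at h4
  have h5 := card_nsmul_le_sum
    {S ∈ I.powerset | ¬ ∃ A ∈ F, (#(S \ A) + #(A \ S) : ℝ) ≤ δ * #I} φ (δ * #I) fun S hS => by
      obtain ⟨A, hA, e⟩ := φ1 S
      exact e ▸ (not_le.1 fun k => (mem_filter.1 hS).2 ⟨A, hA, k⟩).le
  have h6 := h5.trans (sum_le_sum_of_subset_of_nonneg (filter_subset _ _) fun S _ _ => φ0 S)
  have h7 := congrArg (Nat.cast : ℕ → ℝ) (card_filter_add_card_filter_not (s := I.powerset)
    fun S => ∃ A ∈ F, (#(S \ A) + #(A \ S) : ℝ) ≤ δ * #I)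
  rw [card_powerset] at h7
  rw [nsmul_eq_mul] at h6
  push_cast at h7
  have h8 : 0 < δ * #I := by
    by_contra k
    nlinarith [sum_nonneg fun S (_ : S ∈ I.powerset) => φ0 S, (by positivity : (0 : ℝ) < 2 ^ #I)]
  have h9 := lt_of_mul_lt_mul_right (a := δ * #I) (c := 2 ^ #I / 2) (h6.trans_lt (by linarith)) h8.le
  linarith

theorem pairs (I : Finset ℕ) {z k : ℝ} (z0 : 0 < z) (z1 : z ≤ 1) :
    (#{p ∈ I.powerset ×ˢ I.powerset | (#p.1 + #p.2 : ℝ) ≤ k} : ℝ) ≤ exp (2 * z * #I + |k| / z) := by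
  have h1 : ∑ p ∈ I.powerset ×ˢ I.powerset, z ^ #p.1 * z ^ #p.2 = (1 + z) ^ #I * (1 + z) ^ #I := by
    rw [← prod_const (1 + z), prod_one_add, sum_mul_sum, sum_product]
    simp
  have h2 := card_nsmul_le_sum {p ∈ I.powerset ×ˢ I.powerset | (#p.1 + #p.2 : ℝ) ≤ k}
    (fun p => z ^ #p.1 * z ^ #p.2) (exp (-(|k| / z))) fun p hp => by
      have a1 := (mem_filter.1 hp).2.trans (le_abs_self k)
      have a2 := one_sub_inv_le_log_of_pos z0
      rw [← exp_log z0, ← exp_nat_mul, ← exp_nat_mul, ← exp_add, exp_log z0, exp_le_exp,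
        div_eq_mul_inv]
      nlinarith [log_nonpos z0.le z1, abs_nonneg k]
  have h3 := h2.trans ((sum_le_sum_of_subset_of_nonneg (filter_subset _ _)
    fun _ _ _ => by positivity).trans h1.le)
  have h4 : (1 + z) ^ #I ≤ exp (z * #I) := by
    rw [mul_comm, exp_nat_mul]
    gcongr
    linarith [add_one_le_exp z]
  rw [nsmul_eq_mul, exp_neg, ← div_eq_mul_inv, div_le_iff₀ (exp_pos _)] at h3
  refine h3.trans ?_
  rw [exp_add, show 2 * z * #I = z * #I + z * #I by ring, exp_add]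
  gcongr

end Pool.Agent.Work.MP_baf0bc_nt.Ne
end

section
/-! From the entropy bound to the count of seeds, and the count of words with atypical block
frequencies. -/

set_option autoImplicit false

open Finset Real Filter

namespace Pool.Agent.Work.MP_baf0bc_nt.Ne

theorem small {l c η : ℝ} (hl : Blk l) (l0 : 0 ≤ l) (l1 : l ≤ 1) (hc : c < l * logb 2 3)
    (hη : 0 < η) : ∀ᶠ L : ℕ in atTop, ∀ t : ℕ, η * L ≤ t → (t : ℝ) ≤ c * L →
      ∀ E : Finset (ZMod (2 ^ (L + t))), (#E : ℝ) ≤ 2 ^ (L + t) * 2 / exp (η / 4 * L) →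
      ∑ x ∈ E, (dig (2 ^ L) (3 ^ (L + t)) * ∏ i ∈ range L, dig 2 (g (L + t) i)).coeff x < 1 / 2 := by
  filter_upwards [defic hl l0 l1 hc hη (γ := η / 32) (by positivity),
    tendsto_natCast_atTop_atTop.eventually_gt_atTop (32 / η)] with L h L1 t t1 ht E hE
  have pr := (pr_dig (q := 2 ^ L) (by positivity) ((3 : ZMod (2 ^ (L + t))) ^ (L + t))).mul
    (pr_prod (range L) (fun i => dig 2 (g (L + t) i)) fun i _ => pr_dig two_pos _)
  have h1 := H_le pr E (N := 2 ^ (L + t)) (by positivity) (by positivity) hE (by simp)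
  have h2 := h t t1 ht
  rw [log_div (by positivity) (exp_pos _).ne', log_mul (by positivity) two_ne_zero, log_exp,
    log_pow] at h1
  rw [div_lt_iff₀ hη] at L1
  push_cast at h1
  by_contra k
  have h3 := mul_le_mul_of_nonneg_right (not_lt.1 k)
    (show 0 ≤ η / 4 * L - log 2 by linarith [log_two_lt_d9])
  linarith [log_two_lt_d9]

theorem expand2 {G : Type} [AddCommGroup G] (N : ℕ) (g0 : G) (g : ℕ → G) (I : Finset ℕ) :
    dig N g0 * ∏ i ∈ I, dig 2 (g i) = (1 / (N * 2 ^ #I) : ℝ) •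
      ∑ z ∈ range N ×ˢ I.powerset, e (z.1 • g0 + ∑ i ∈ z.2, g i) := by
  have he : ∀ S : Finset ℕ, e (∑ i ∈ S, g i) = ∏ i ∈ S, e (g i) := fun S => by
    refine Finset.induction_on S (by simp [e_zero]) fun a s ha ih => ?_
    rw [sum_insert ha, prod_insert ha, e_add, ih]
  simp only [dig, Finset.prod_smul, smul_mul_smul_comm, sum_range_succ, sum_range_zero, zero_add,
    zero_smul, one_smul, e_zero, prod_one_add, sum_product, e_add, he, sum_mul_sum, prod_const]
  congr 1
  rw [one_div_pow, one_div_mul_one_div, Nat.cast_ofNat]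

theorem win {l c η : ℝ} (hl : Blk l) (l0 : 0 ≤ l) (l1 : l ≤ 1) (hc : c < l * logb 2 3)
    (hη : 0 < η) (η1 : η ≤ 1) : ∀ᶠ L : ℕ in atTop, ∀ a t : ℕ, (t : ℝ) ≤ c * L →
      ∀ V : Finset (Fin t → ℕ), (V.card : ℝ) * 2 ^ (η * L) ≤ 2 ^ t →
      (#{n ∈ Ico a (a + 2 ^ L) | (fun i : Fin t => T^[L + i] n % 2) ∈ V} : ℝ) ≤
        2 ^ L * exp (-((η ^ 2 / 128) ^ 2 / 2) * L) := by
  filter_upwards [small hl l0 l1 hc hη] with L h a t ht V hV
  rcases V.eq_empty_or_nonempty with rfl | hne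
  · simp only [notMem_empty, filter_false, card_empty, Nat.cast_zero]
    positivity
  have V1 : (1 : ℝ) ≤ V.card := Nat.one_le_cast.2 hne.card_pos
  have r0 : (0 : ℝ) < 2 ^ (η * L) := by positivity
  have t1 : η * L ≤ t := by
    rw [← rpow_le_rpow_left_iff one_lt_two, rpow_natCast]
    exact (le_mul_of_one_le_left r0.le V1).trans hV
  set B := {n ∈ Ico a (a + 2 ^ L) | (fun i : Fin t => T^[L + i] n % 2) ∈ V} with hB
  by_contra hc
  let S : ℕ → Finset ℕ := fun n => {i ∈ range L | T^[i] n % 2 = 1}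
  have h1 := blow (I := range L) (F := B.image S) (δ := η ^ 2 / 128)
    (fun A hA => by
      obtain ⟨n, -, rfl⟩ := mem_image.1 hA
      exact mem_powerset.2 (filter_subset _ _)) (by positivity) (by
      rw [card_range, card_image_of_injOn]
      · exact not_le.1 hc
      · intro n hn n' hn' e
        simp only [hB, coe_filter, mem_Ico, Set.mem_ofPred_eq] at hn hn'
        refine seed_inj (L := L) (by omega) (by omega) fun i hi => ?_
        have := Finset.ext_iff.1 e i
        simp only [S, mem_filter, mem_range, hi, true_and] at this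
        omega)
  have h2 := pairs (range L) (z := η / 16) (k := η ^ 2 / 128 * L) (by positivity) (by linarith)
  rw [card_range] at h1 h2
  set D := {p ∈ (range L).powerset ×ˢ (range L).powerset |
    (#p.1 + #p.2 : ℝ) ≤ η ^ 2 / 128 * L} with hD
  let E : Finset (ZMod (2 ^ (L + t))) := (V ×ˢ range (2 ^ (L + 1)) ×ˢ D).image fun p =>
    (p.2.1 - 2 ^ L - a) * 3 ^ (L + t) - ∑ i : Fin t, p.1 i * g (L + t) (L + i) +
      (∑ i ∈ p.2.2.1, g (L + t) i - ∑ i ∈ p.2.2.2, g (L + t) i)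
  refine (h t t1 ht E ?_).not_ge ?_
  · refine (Nat.cast_le.2 card_image_le).trans ?_
    rw [card_product, card_product, card_range, le_div_iff₀ (exp_pos _)]
    rw [abs_of_nonneg (by positivity),
      show 2 * (η / 16) * L + η ^ 2 / 128 * L / (η / 16) = η / 4 * L by field_simp; ring] at h2
    have a1 : exp (η / 4 * L) * exp (η / 4 * L) ≤ 2 ^ (η * L) := by
      rw [← exp_add, rpow_def_of_pos two_pos, exp_le_exp]
      nlinarith [log_two_gt_d9, (by positivity : 0 ≤ η * L)]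
    push_cast
    calc _ ≤ (V.card : ℝ) * (2 ^ (L + 1) * exp (η / 4 * L)) * exp (η / 4 * L) := by gcongr
      _ = V.card * (exp (η / 4 * L) * exp (η / 4 * L)) * 2 ^ (L + 1) := by ring
      _ ≤ 2 ^ t * 2 ^ (L + 1) := by gcongr; exact le_trans (by gcongr) hV
      _ = _ := by ring
  rw [expand2, mass, card_range]
  have : #(range (2 ^ L) ×ˢ {X ∈ (range L).powerset | ∃ A ∈ B.image S,
      (#(X \ A) + #(A \ X) : ℝ) ≤ η ^ 2 / 128 * L}) ≤ #{z ∈ range (2 ^ L) ×ˢ (range L).powerset |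
      z.1 • (3 : ZMod (2 ^ (L + t))) ^ (L + t) + ∑ i ∈ z.2, g (L + t) i ∈ E} := by
    refine card_le_card fun z hz => ?_
    obtain ⟨z1, z2⟩ := mem_product.1 hz
    obtain ⟨z2, A, hA, z3⟩ := mem_filter.1 z2
    obtain ⟨n, hn, rfl⟩ := mem_image.1 hA
    simp only [hB, mem_filter, mem_Ico] at hn
    rw [mem_range] at z1
    refine mem_filter.2 ⟨mem_product.2 ⟨mem_range.2 z1, z2⟩, mem_image.2
      ⟨(_, z.1 + 2 ^ L + a - n, z.2 \ S n, S n \ z.2), mem_product.2 ⟨hn.2, mem_product.2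
        ⟨mem_range.2 (by simp only [pow_succ]; omega), mem_filter.2 ⟨mem_product.2
          ⟨mem_powerset.2 (sdiff_subset.trans (mem_powerset.1 z2)),
            mem_powerset.2 (sdiff_subset.trans (filter_subset _ _))⟩, z3⟩⟩⟩, ?_⟩⟩
    have k := spec_mod n (L + t)
    rw [sum_range_add, sum_range (n := t), show ∑ i ∈ range L,
      ((T^[i] n % 2 : ℕ) : ZMod (2 ^ (L + t))) * g (L + t) i = ∑ i ∈ S n, g (L + t) i by
        rw [sum_filter]
        refine sum_congr rfl fun i _ => ?_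
        rcases Nat.mod_two_eq_zero_or_one (T^[i] n) with e | e <;> simp [e]] at k
    simp only [nsmul_eq_mul, sum_sdiff_sub_sum_sdiff]
    rw [Nat.cast_sub (by omega)]
    push_cast at k ⊢
    linear_combination -k
  rw [card_product, card_range] at this
  refine le_trans ?_ (mul_le_mul_of_nonneg_left (Nat.cast_le.2 this) (by positivity))
  push_cast
  rw [one_div_mul_eq_div, mul_div_mul_left _ _ (by positivity), le_div_iff₀ (by positivity)]
  linarith

theorem win1 (hl : Blk (log 2 / log 3)) {η : ℝ} (hη : 0 < η) : ∃ c : ℝ, 0 < c ∧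
    ∀ᶠ L : ℕ in atTop, ∀ a : ℕ, ∀ t ≤ L, ∀ V : Finset (Fin t → ℕ),
      (V.card : ℝ) * 2 ^ (η * L) ≤ 2 ^ t →
      (#{n ∈ Ico a (a + 2 ^ L) | (fun i : Fin t => T^[L + i] n % 2) ∈ V} : ℝ) ≤
        2 ^ L * exp (-c * L) := by
  have l2 : 0 < log 2 := log_pos one_lt_two
  have l3 : log 2 ≤ log 3 := log_le_log two_pos (by norm_num)
  obtain ⟨x, x0, x1, x2⟩ : ∃ x : ℝ, 0 < x ∧ x ≤ 1 ∧ x ≤ η :=
    ⟨min 1 η, lt_min one_pos hη, min_le_left _ _, min_le_right _ _⟩
  refine ⟨((x / 2) ^ 2 / 128) ^ 2 / 2, by positivity, ?_⟩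
  filter_upwards [win (c := 1 - x / 4) (η := x / 2) hl (by positivity [l2.trans_le l3])
    ((div_le_one (l2.trans_le l3)).2 l3) (by
      rw [logb, div_mul_div_cancel₀ (l2.trans_le l3).ne', div_self l2.ne']
      linarith) (by positivity) (by linarith),
    tendsto_natCast_atTop_atTop.eventually_ge_atTop (4 / x)] with L h L1 a t ht V hV
  rw [div_le_iff₀ x0] at L1
  have L0 := Nat.cast_nonneg (α := ℝ) L
  have c0 : 0 ≤ (1 - x / 4) * L := mul_nonneg (by linarith) L0
  obtain ⟨t', t1, t2, t3⟩ : ∃ t' ≤ t, (t' : ℝ) ≤ (1 - x / 4) * L ∧ t ≤ t' + x / 2 * L := by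
    rcases le_total (t : ℝ) ((1 - x / 4) * L) with k | k
    · exact ⟨t, le_rfl, k, le_add_of_nonneg_right (by positivity)⟩
    · refine ⟨⌊(1 - x / 4) * L⌋₊, Nat.floor_le_of_le k, Nat.floor_le c0, ?_⟩
      linarith [Nat.lt_floor_add_one ((1 - x / 4) * L), Nat.cast_le (α := ℝ).2 ht]
  refine le_trans (Nat.cast_le.2 (card_le_card fun n hn => ?_))
    (h a t' t2 (V.image fun v i => v (Fin.castLE t1 i)) ?_)
  · rw [mem_filter] at hn ⊢
    exact ⟨hn.1, mem_image.2 ⟨_, hn.2, rfl⟩⟩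
  · refine le_of_mul_le_mul_right (a := 2 ^ (x / 2 * L)) ?_ (by positivity)
    calc _ ≤ (V.card : ℝ) * 2 ^ (η * L) := by
          rw [mul_assoc, ← rpow_add two_pos]
          gcongr
          · exact card_image_le
          · norm_num
          · nlinarith
      _ ≤ 2 ^ t := hV
      _ ≤ _ := by
          rw [← rpow_natCast, ← rpow_natCast, ← rpow_add two_pos]
          exact rpow_le_rpow_of_exponent_le one_le_two t3

/-- A finite word as a sequence. -/
def ext {t : ℕ} (w : Fin t → ℕ) (n : ℕ) : ℕ := if h : n < t then w ⟨n, h⟩ else 0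

/-- The indicator of an occurrence of `u` at the position `i`. -/
noncomputable def ind {t : ℕ} (l : ℕ) (u : ℕ → ℕ) (w : Fin t → ℕ) (i : ℕ) : ℝ :=
  if ∀ j < l, ext w (i + j) = u j then 1 else 0

theorem cnt {t l r N : ℕ} {u : ℕ → ℕ} (hu : ∀ j, u j < 2) (h : r + l * N ≤ t) {S : Finset ℕ}
    (hS : S ⊆ range N) : ∑ w ∈ Fintype.piFinset fun _ : Fin t => range 2,
      ∏ q ∈ S, ind l u w (r + l * q) = 2 ^ t * (1 / 2 ^ l) ^ #S := by
  let P := (S ×ˢ range l).image fun z => r + l * z.1 + z.2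
  have md : ∀ q j, j < l → (r + l * q + j - r) % l = j := fun q j hj => by
    rw [add_assoc, Nat.add_sub_cancel_left, Nat.mul_add_mod, Nat.mod_eq_of_lt hj]
  have lt : ∀ q ∈ S, ∀ j < l, r + l * q + j < t := fun q hq j hj => by
    nlinarith [mem_range.1 (hS hq)]
  have P1 : P ⊆ range t := fun n hn => by
    obtain ⟨z, hz, rfl⟩ := mem_image.1 hn
    exact mem_range.2 (lt _ (mem_product.1 hz).1 _ (mem_range.1 (mem_product.1 hz).2))
  have P2 : #P = l * #S := by
    rw [card_image_of_injOn, card_product, card_range, mul_comm]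
    rintro ⟨q, j⟩ h1 ⟨q', j'⟩ h2 e
    simp only [coe_product, Set.mem_prod, mem_coe, mem_range] at h1 h2 e
    have h3 := md q j h1.2
    rw [e, md q' j' h2.2] at h3
    subst h3
    rw [Nat.eq_of_mul_eq_mul_left (by omega) (Nat.add_left_cancel (Nat.add_right_cancel e))]
  simp only [ind, prod_boole, sum_boole]
  rw [show {w ∈ Fintype.piFinset fun _ : Fin t => range 2 |
      ∀ q ∈ S, ∀ j < l, ext w (r + l * q + j) = u j} =
      Fintype.piFinset fun n : Fin t => if n.1 ∈ P then {u ((n - r) % l)} else range 2 by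
    ext w
    simp only [mem_filter, Fintype.mem_piFinset]
    refine ⟨fun k n => ?_, fun k => ⟨fun n => ?_, fun q hq j hj => ?_⟩⟩
    · split_ifs with hn
      · obtain ⟨z, hz, e⟩ := mem_image.1 hn
        have hz2 := mem_range.1 (mem_product.1 hz).2
        have := k.2 _ (mem_product.1 hz).1 _ hz2
        rw [mem_singleton, ← e, md _ _ hz2, ← this, e, ext, dif_pos n.2]
      · exact k.1 n
    · have := k n
      split_ifs at this
      · rw [mem_singleton.1 this]
        exact mem_range.2 (hu _)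
      · exact this
    · have := k ⟨_, lt q hq j hj⟩
      rw [if_pos (mem_image.2 ⟨(q, j), mem_product.2 ⟨hq, mem_range.2 hj⟩, rfl⟩), mem_singleton,
        md _ _ hj] at this
      rw [ext, dif_pos (lt q hq j hj), this]]
  rw [Fintype.card_piFinset]
  simp only [apply_ite card, card_singleton, card_range]
  rw [Fin.prod_univ_eq_prod_range (fun n => if n ∈ P then 1 else 2) t, prod_ite, prod_const_one,
    prod_const, one_mul, ← sdiff_eq_filter, card_sdiff_of_subset P1, card_range, one_div_pow,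
    ← pow_mul, ← P2, mul_one_div, eq_div_iff (by positivity)]
  push_cast
  rw [← pow_add, Nat.sub_add_cancel (by simpa using card_le_card P1)]

theorem tail {t l r N : ℕ} {u : ℕ → ℕ} (hu : ∀ j, u j < 2) (h : r + l * N ≤ t) {x : ℝ}
    (hx : |x| ≤ 1) (θ : ℝ) : (#{w ∈ Fintype.piFinset fun _ : Fin t => range 2 |
      θ ≤ x * ∑ q ∈ range N, (ind l u w (r + l * q) - 1 / 2 ^ l)} : ℝ) ≤
      2 ^ t * exp (x ^ 2 * N - θ) := by
  obtain ⟨p, hp⟩ : ∃ p : ℝ, p = 1 / 2 ^ l := ⟨_, rfl⟩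
  have p0 : 0 < p := by rw [hp]; positivity
  have p1 : p ≤ 1 := by rw [hp, div_le_one (by positivity)]; exact one_le_pow₀ one_le_two
  obtain ⟨α, hα⟩ : ∃ α, α = exp (x * (0 - p)) := ⟨_, rfl⟩
  obtain ⟨β, hβ⟩ : ∃ β, β = exp (x * (1 - p)) - α := ⟨_, rfl⟩
  have h1 : ∑ w ∈ Fintype.piFinset fun _ : Fin t => range 2,
      exp (x * ∑ q ∈ range N, (ind l u w (r + l * q) - p)) = 2 ^ t * (β * p + α) ^ N := by
    have : ∀ (w : Fin t → ℕ) i, exp (x * (ind l u w i - p)) = β * ind l u w i + α := fun w i => by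
      rw [ind]
      split_ifs <;> simp [hβ, hα]
    simp only [mul_sum, exp_sum, this, prod_add]
    rw [sum_comm, ← card_range N, ← prod_const, card_range, prod_add, mul_sum]
    refine sum_congr rfl fun S hS => ?_
    simp only [prod_mul_distrib, ← sum_mul, ← mul_sum, cnt hu h (mem_powerset.1 hS), prod_const,
      ← hp]
    ring
  have h2 : β * p + α ≤ exp (x ^ 2) := by
    have k : ∀ y : ℝ, |y| ≤ 1 → exp (x * y) ≤ 1 + x * y + x ^ 2 := fun y hy => by
      have a := (abs_le.1 (abs_exp_sub_one_sub_id_le (x := x * y)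
        (by rw [abs_mul]; exact mul_le_one₀ hx (abs_nonneg _) hy))).2
      nlinarith [mul_le_mul_of_nonneg_left ((sq_le_one_iff_abs_le_one y).2 hy) (sq_nonneg x)]
    have k1 := mul_le_mul_of_nonneg_left (k (1 - p) (by rw [abs_le]; constructor <;> linarith)) p0.le
    have k2 := mul_le_mul_of_nonneg_left (k (0 - p) (by rw [abs_le]; constructor <;> linarith))
      (sub_nonneg.2 p1)
    rw [hβ, hα]
    linarith [add_one_le_exp (x ^ 2)]
  have h3 : 0 ≤ β * p + α := by
    rw [hβ, hα]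
    nlinarith [exp_pos (x * (1 - p)), exp_pos (x * (0 - p))]
  rw [← hp, exp_sub, ← mul_div_assoc, le_div_iff₀ (exp_pos _), ← nsmul_eq_mul]
  refine (card_nsmul_le_sum _ _ _ fun w hw => exp_le_exp.2 (mem_filter.1 hw).2).trans
    ((sum_le_sum_of_subset_of_nonneg (filter_subset _ _) fun _ _ _ => (exp_pos _).le).trans ?_)
  rw [h1, mul_comm (x ^ 2), exp_nat_mul]
  gcongr

theorem words {l : ℕ} (hl : 1 ≤ l) {u : ℕ → ℕ} (hu : ∀ j, u j < 2) {τ x : ℝ} (x0 : 0 < x)
    (x1 : x ≤ 1) (x2 : x ≤ τ / 2) {t : ℕ} (ht : l ≤ t) :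
    (#{w ∈ Fintype.piFinset fun _ : Fin t => range 2 |
      τ * t ≤ |∑ i ∈ range (t + 1 - l), ind l u w i - t / 2 ^ l|} : ℝ) ≤
      2 * l * (2 ^ t * exp (2 - x * τ / (2 * l) * t)) := by
  obtain ⟨N, N1, N2⟩ : ∃ N, l * N + l ≤ t ∧ t ≤ l * N + 2 * l := by
    obtain ⟨N, hN⟩ := Nat.exists_eq_succ_of_ne_zero (Nat.div_pos ht hl).ne'
    have a1 := Nat.mul_div_le t l
    have a2 := Nat.lt_mul_div_succ t hl
    rw [hN] at a1 a2
    exact ⟨N, a1, by nlinarith⟩
  have l0 : (0 : ℝ) < l := Nat.cast_pos.2 hl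
  have N1' : (l : ℝ) * N + l ≤ t := by exact_mod_cast N1
  have N2' : (t : ℝ) ≤ l * N + 2 * l := by exact_mod_cast N2
  have sp : ∀ (f : ℕ → ℝ) (N : ℕ), ∑ i ∈ range (l * N), f i =
      ∑ r ∈ range l, ∑ q ∈ range N, f (r + l * q) := fun f N => by
    induction N with
    | zero => simp
    | succ N ih =>
      rw [mul_add_one, sum_range_add, ih]
      simp only [sum_range_succ, sum_add_distrib, add_comm (l * N)]
  refine le_trans (Nat.cast_le.2 ((card_le_card (t := (range l ×ˢ ({x, -x} : Finset ℝ)).biUnion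
    fun z => {w ∈ Fintype.piFinset fun _ : Fin t => range 2 | x * ((τ * t - 2 * l) / l) ≤
      z.2 * ∑ q ∈ range N, (ind l u w (z.1 + l * q) - 1 / 2 ^ l)}) fun w hw => ?_).trans
      card_biUnion_le)) ?_
  · rw [mem_filter] at hw
    have : ∑ _r ∈ range l, (τ * t - 2 * l) / l ≤
        ∑ r ∈ range l, |∑ q ∈ range N, (ind l u w (r + l * q) - 1 / 2 ^ l)| := by
      refine le_trans ?_ (abs_sum_le_sum_abs _ _)
      rw [sum_const, card_range, nsmul_eq_mul, mul_div_cancel₀ _ l0.ne',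
        ← sp fun i => ind l u w i - 1 / 2 ^ l, sum_sub_distrib, sum_const, card_range]
      obtain ⟨ρ, hρ⟩ := Nat.exists_eq_add_of_le (show l * N ≤ t + 1 - l by omega)
      have h1 := hw.2
      rw [hρ, sum_range_add] at h1
      have b1 : 0 ≤ ∑ i ∈ range ρ, ind l u w (l * N + i) :=
        sum_nonneg fun i _ => by rw [ind]; split_ifs <;> norm_num
      have b2 : ∑ i ∈ range ρ, ind l u w (l * N + i) ≤ 2 * l := by
        refine (sum_le_card_nsmul _ _ 1 fun i _ => by rw [ind]; split_ifs <;> norm_num).trans ?_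
        rw [card_range, nsmul_eq_mul, mul_one]
        exact_mod_cast (by omega : ρ ≤ 2 * l)
      have p0 : (0 : ℝ) < 1 / 2 ^ l := by positivity
      have p1 : (1 : ℝ) / 2 ^ l ≤ 1 := by
        rw [div_le_one (by positivity)]
        exact one_le_pow₀ one_le_two
      have b3 : 0 ≤ ((t : ℝ) - l * N) * (1 / 2 ^ l) := mul_nonneg (by linarith) p0.le
      have b4 : ((t : ℝ) - l * N) * (1 / 2 ^ l) ≤ 2 * l :=
        (mul_le_of_le_one_right (by linarith) p1).trans (by linarith)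
      rw [div_eq_mul_one_div (t : ℝ), le_abs] at h1
      rw [nsmul_eq_mul, le_abs]
      push_cast
      exact h1.imp (fun k => by linarith) fun k => by linarith
    obtain ⟨r, hr, k⟩ := exists_le_of_sum_le (nonempty_range_iff.2 (by omega)) this
    rcases le_abs.1 k with k | k
    · exact mem_biUnion.2 ⟨(r, x), by simpa using hr,
        mem_filter.2 ⟨hw.1, mul_le_mul_of_nonneg_left k x0.le⟩⟩
    · exact mem_biUnion.2 ⟨(r, -x), by simpa using hr,
        mem_filter.2 ⟨hw.1, (mul_le_mul_of_nonneg_left k x0.le).trans_eq (by ring)⟩⟩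
  rw [Nat.cast_sum]
  refine (sum_le_card_nsmul _ _ (2 ^ t * exp (2 - x * τ / (2 * l) * t)) fun z hz => ?_).trans ?_
  · obtain ⟨z1, z2⟩ := mem_product.1 hz
    have z3 : |z.2| = x := by
      rcases mem_insert.1 z2 with k | k
      · rw [k, abs_of_pos x0]
      · rw [mem_singleton.1 k, abs_neg, abs_of_pos x0]
    refine (tail hu (by have := mem_range.1 z1; omega) (z3.trans_le x1) _).trans ?_
    rw [← sq_abs, z3]
    refine mul_le_mul_of_nonneg_left (exp_le_exp.2 ?_) (by positivity)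
    have e1 : x * ((τ * t - 2 * l) / l) = x * τ * (t / l) - 2 * x := by field_simp
    have e2 : x * τ / (2 * l) * t = x * τ * (t / l) / 2 := by field_simp
    have e3 : (N : ℝ) ≤ t / l := by rw [le_div_iff₀' l0]; linarith
    have e4 : x ^ 2 * N ≤ x * (τ / 2) * (t / l) := by rw [sq]; gcongr; nlinarith
    linarith
  · rw [nsmul_eq_mul, card_product, card_range]
    gcongr
    exact_mod_cast (Nat.mul_le_mul_left l card_le_two).trans_eq (mul_comm _ _)

end Pool.Agent.Work.MP_baf0bc_nt.Ne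
end
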